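import Pool.Agent.Helper61.QS.GoalsH

/-!
# Project QS (MP_0ebdb3_gt), block G (curvature, base metrics)

Points of `R4` are `(r, θ, α, β)`; `∂r = (1,0,0,0)`, `∂θ = (0,1,0,0)`.  A packet may use the other
goals as hypotheses.  The definitions (`IsCurv`, `Gam`, `dd`, `gB`, `gT`, `Nf`, `pol`, `kap`, ...) are
in `Defs.lean`.
-/

set_option autoImplicit false

open Set ComplexConjugate

namespace Pool.Agent.Helper61.QS

/-- the regular points of the polar coordinates -/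
def Reg : Set R4 := {x | Real.sin x.1 ≠ 0 ∧ Real.cos x.1 ≠ 0 ∧ Real.sin x.2.1 ≠ 0}

/-- **G-PL** (facts on the polar coordinates).
Proof.  Direct.  Transversality: if `Dpol a = τ orb`, the first component gives
`-sin r a_r = i τ cos r`, so `a_r = 0` and `τ = 0` (real and imaginary part), then
`i e^{iα} sin r a_α = 0`, and `cos θ a_θ + i sin θ a_β = 0`, `sin θ a_θ = 0`. -/
def G_PL : Prop :=
  ContDiff ℝ 3 pol ∧ (∀ x, pol x ∈ X) ∧ (∀ x a, fderiv ℝ pol x a ∈ TX (pol x)) ∧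
  (∀ x a : R4, fderiv ℝ pol x a =
    ((-(Real.sin x.1 * a.1 : ℂ), Complex.exp (x.2.2.1 * Complex.I) *
        (Real.cos x.1 * a.1 + Complex.I * Real.sin x.1 * a.2.2.1)),
      (Complex.exp (x.2.2.2 * Complex.I) *
        (Real.cos x.2.1 * a.2.1 + Complex.I * Real.sin x.2.1 * a.2.2.2),
        -(Real.sin x.2.1 * a.2.1)))) ∧
  ∀ (m : ℤ), ∀ x ∈ Reg, ∀ (a : R4) (τ : ℝ), fderiv ℝ pol x a = τ • orb m (pol x) → a = 0

/-- **G-G1** (second derivative of a product of two vanishing factors).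
Proof.  Near `z`, `∂_b (γ(P,Q)) = (∂_b γ)(P,Q) + γ(∂_b P, Q) + γ(P, ∂_b Q)`; at `z` this is `0`.
Differentiate each of the three terms at `z` in the direction `a` (each is a product of differentiable
functions; a trilinear product with two vanishing factors has derivative `0`; `γ(∂_b P, Q)` has
derivative `γ(∂_b P, ∂_a Q)` since `Q z = 0`; `γ(P, ∂_b Q)` has derivative `γ(∂_a P, ∂_b Q)`). -/
def G_G1 : Prop := ∀ (F E : Type) [NormedAddCommGroup F] [NormedSpace ℝ F] [NormedAddCommGroup E]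
  [NormedSpace ℝ E] (γ : F → E →L[ℝ] E →L[ℝ] ℝ) (P Q : F → E) (z : F),
  ContDiffAt ℝ 2 γ z → ContDiffAt ℝ 2 P z → ContDiffAt ℝ 2 Q z → P z = 0 → Q z = 0 →
  (∀ a, fderiv ℝ (fun y => γ y (P y) (Q y)) z a = 0) ∧
  ∀ a b, dd (fun y => γ y (P y) (Q y)) z a b =
    γ z (fderiv ℝ P z a) (fderiv ℝ Q z b) + γ z (fderiv ℝ P z b) (fderiv ℝ Q z a)

/-- **G-G2** (O'Neill's identity at one point; uses `G_G1`).

Write `z = (x,w)`, `ã = (a,0)`, `D u v = (fderiv ℝ N z (u,0)) (v,0)`, which is the derivative in the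
direction `ũ` of `y ↦ N y ṽ`.  All `N z ũ = 0`.
Proof.  `g y p q = h y.1 p.1 q.1 + γ y (N y p) (N y q)`.
(1) First derivatives: `∂_ũ (g ṽ q) = ∂_u (h v q.1) + γ z (D u v) (N z q)` (product rule,
`N z ṽ = 0`), `∂_q (g ũ ṽ) = ∂_{q.1} (h u v)` (`G_G1`); so
`Gam g z ũ ṽ q = Gam h x u v q.1 + (1/2) γ z (D u v + D v u) (N z q)`.
(2) Let `cab, caa, cbb` be those of `h`; `yab, yaa, ybb` with `N z (0,yab) = (D a b + D b a)/2`,
`N z (0,yaa) = D a a`, `N z (0,ybb) = D b b`.  As `N z (c,y) = N z (0,y)`, the vectors `(cab,yab)`,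
`(caa,yaa)`, `(cbb,ybb)` are those of `g`.
(3) Second derivatives (`G_G1`): `dd (g b̃ b̃) ã ã = dd (h b b) a a + 2 γ(D a b, D a b)`,
`dd (g ã ã) b̃ b̃ = dd (h a a) b b + 2 γ(D b a, D b a)`,
`dd (g ã b̃) ã b̃ = dd (h a b) a b + γ(D a a, D b b) + γ(D b a, D a b)`.
(4) So the curvature number of `g` is
`K - |Dab|² - |Dba|² + γ(Daa,Dbb) + γ(Dba,Dab) + (1/4) γ(Dab + Dba, Dab + Dba) - γ(Daa,Dbb)
= K - (3/4) γ(Dab - Dba, Dab - Dba)` by the symmetry `hsym`.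
(`ContDiffAt.comp` with `Prod.fst` for `h`; `dd` of a sum is the sum: the functions are `C²` at `z`.) -/
def G_G2 : Prop := ∀ (F1 F2 E : Type) [NormedAddCommGroup F1] [NormedSpace ℝ F1]
  [NormedAddCommGroup F2] [NormedSpace ℝ F2] [NormedAddCommGroup E] [NormedSpace ℝ E]
  (h : F1 → F1 →L[ℝ] F1 →L[ℝ] ℝ) (γ : F1 × F2 → E →L[ℝ] E →L[ℝ] ℝ)
  (N : F1 × F2 → (F1 × F2) →L[ℝ] E) (x : F1) (w : F2) (a b : F1) (K : ℝ),
  ContDiffAt ℝ 2 h x → ContDiffAt ℝ 2 γ (x, w) → ContDiffAt ℝ 2 N (x, w) →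
  (∀ c, N (x, w) (c, 0) = 0) →
  (∀ u v : F1, ∃ y : F2, N (x, w) (0, y) = (fderiv ℝ N (x, w) (u, 0)) (v, 0)) →
  (∀ u v : F2, γ (x, w) (N (x, w) (0, u)) (N (x, w) (0, v)) =
    γ (x, w) (N (x, w) (0, v)) (N (x, w) (0, u))) →
  IsCurv h x a b K →
  IsCurv (fun z => (h z.1).bilinearComp (ContinuousLinearMap.fst ℝ F1 F2)
      (ContinuousLinearMap.fst ℝ F1 F2) + (γ z).bilinearComp (N z) (N z)) (x, w) (a, 0) (b, 0)
    (K - 3 / 4 * γ (x, w)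
      ((fderiv ℝ N (x, w) (a, 0)) (b, 0) - (fderiv ℝ N (x, w) (b, 0)) (a, 0))
      ((fderiv ℝ N (x, w) (a, 0)) (b, 0) - (fderiv ℝ N (x, w) (b, 0)) (a, 0)))

/-- **G-G3** (the curvature number exists).
Proof.  `u ↦ h x u` is an injective linear map `R4 → (R4 →L[ℝ] ℝ)` (positivity), hence surjective
(equal finite dimensions).  `c ↦ Gam h x a b c` is linear: `fderiv (fun y => h y b c) x a =
(fderiv h x a) b c` as `h` is differentiable at `x`, etc.  So `cab, caa, cbb` exist; take `K` to be the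
formula. -/
def G_G3 : Prop := ∀ (h : R4 → R4 →L[ℝ] R4 →L[ℝ] ℝ) (x : R4), DifferentiableAt ℝ h x →
  (∀ u, u ≠ 0 → 0 < h x u u) → ∀ a b, ∃ K, IsCurv h x a b K

/-- `b = B(∂r)` in polar coordinates -/
noncomputable def bb {n : ℕ} (B : W → W →L[ℝ] En n) (x : R4) : En n :=
  B (pol x) (fderiv ℝ pol x (1, 0, 0, 0))

/-- `c = B(∂θ)` in polar coordinates -/
noncomputable def cc {n : ℕ} (B : W → W →L[ℝ] En n) (x : R4) : En n :=
  B (pol x) (fderiv ℝ pol x (0, 1, 0, 0))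

/-- the curvature of the connection on `∂r, ∂θ` -/
noncomputable def FF {n : ℕ} (B : W → W →L[ℝ] En n) (x : R4) : En n :=
  fderiv ℝ (cc B) x (1, 0, 0, 0) - fderiv ℝ (bb B) x (0, 1, 0, 0) -
    (bb B x * cc B x - cc B x * bb B x)

/-- **G-FR** (frames that are parallel at a point; uses `G_PL`, `G_ISO`).

Proof.  Let `x0 ∈ Reg`, `e₀ = e (pol x0)`, `J : V k → V n` the isometry onto the range of `e₀`
(`G_ISO`, rank `k`), `L : R4 →L[ℝ] En n`, `L a = B (pol x0) (fderiv ℝ pol x0 a)` and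
`s x = (e (pol x) * (1 + L (x - x0))).comp J`, which is `C³`.  `s x0 = e₀ J = J`; its derivative at
`x0` is `((fderiv e (Dpol a)) + e₀ L a) J = (L a e₀ - e₀ L a + e₀ L a) J = L a J` (`IsBundle.par`).
`U = {x ∈ Reg | adjoint J ∘ s x is invertible}` is open, contains `x0` (`J⋆J = 1`; use
`Units.isOpen`/`ContinuousLinearMap` invertible = `IsUnit`); on `U`, `s x` is injective, its range is
contained in the range of `e (pol x)` (`e e = e`), both have dimension `k`, so they are equal. -/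
def G_FR : Prop := ∀ (m : ℤ) (k n : ℕ) (e : W → En n) (B : W → W →L[ℝ] En n), IsBundle m k e B →
  ∀ x0 ∈ Reg, ∃ (U : Set R4) (s : R4 → (V k →L[ℝ] V n)), IsChart m k e U pol s ∧ x0 ∈ U ∧
    ∀ a, fderiv ℝ s x0 a = (B (pol x0) (fderiv ℝ pol x0 a)).comp (s x0)

/-- **G-KG** (curvature of the total space; uses `G_PL`, `G_G2`).

Proof.  `gT gM γ B pol s` is the `g` of `G_G2` with `h = gB gM pol`, `γ' z = γ (pol z.1, s z.1 z.2)`,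
`N = Nf B pol s` (`rfl`); all are `C²` at `z = (x0, w)` (`s, pol, e, B, gM, γ` are `C³` there, `N`
contains one derivative of `s` and `pol`).  `N z (c,0) = (Ds c) w - B(Dpol c)(s w) = 0` at `x0` by `hs`.
(1) `N y q` is in the range of `e (pol y.1)` for `y` near `z`: from `e(p x) (s x w) = s x w`,
differentiate in the direction `a`: `(De(Dp a)) s w + e (Ds a) w = (Ds a) w`, and
`De(Dp a) = B e - e B` with `B = B(p)(Dp a)`, `e s = s`, give `e ((Ds a)w - B s w) = (Ds a) w - B s w`;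
and `e (s b) = s b`.
(2) Differentiate `e (pol y.1) (N y (v,0)) = N y (v,0)` at `z` in the direction `(u,0)`, where
`N z (v,0) = 0`: `D u v := (fderiv N z (u,0)) (v,0)` is in the range of `e (pol x0)`, i.e. in the range
of `s x0 = N z (0,·)`.  Symmetry of `γ'` on this range: `IsFibre.symm`.
(3) `N y (v,0) = (Ds(x) v) w - B(p x)(Dp(x) v) (s x w)`, so for `u = ∂r`, `v = ∂θ`
`D ∂r ∂θ = s_{rθ} w - c_r s w - c s_r w`, `D ∂θ ∂r = s_{θr} w - b_θ s w - b s_θ w`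
(`bb = b`, `cc = c`), `s_r = b s`, `s_θ = c s` at `x0` by `hs`, and `s_{rθ} = s_{θr}` (`s` is `C³` near
`x0`, `ContDiffAt.isSymmSndFDerivAt`).  So `D ∂r ∂θ - D ∂θ ∂r = -(c_r - b_θ - (b c - c b)) s w =
- FF B x0 (s x0 w)`. -/
def G_KG : Prop := ∀ (m : ℤ) (k n : ℕ) (e : W → En n) (B : W → W →L[ℝ] En n)
  (gM : W → W →L[ℝ] W →L[ℝ] ℝ) (γ : W × V n → V n →L[ℝ] V n →L[ℝ] ℝ) (ρ : ℝ),
  IsBundle m k e B → IsBase m gM → IsFibre m ρ e γ →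
  ∀ (U : Set R4) (s : R4 → (V k →L[ℝ] V n)), IsChart m k e U pol s → ∀ x0 ∈ U,
    (∀ a, fderiv ℝ s x0 a = (B (pol x0) (fderiv ℝ pol x0 a)).comp (s x0)) →
    ∀ (w : V k), ‖s x0 w‖ < ρ →
      e (pol x0) (FF B x0 (s x0 w)) = FF B x0 (s x0 w) ∧
      ∀ K, IsCurv (gB gM pol) x0 (1, 0, 0, 0) (0, 1, 0, 0) K →
        IsCurv (gT gM γ B pol s) (x0, w) ((1, 0, 0, 0), 0) ((0, 1, 0, 0), 0)
          (K - 3 / 4 * γ (pol x0, s x0 w) (FF B x0 (s x0 w)) (FF B x0 (s x0 w)))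

/-- **G-KC** (consequences of `sec ≥ 0`; uses `G_FR`, `G_KG`).
Proof.  Take `U, s` from `G_FR` at `x0`.  `w = 0`: `s x0 0 = 0`, so `G_KG` and `TubeSec` give
`0 ≤ K - (3/4) γ(0)(0) = K`.  If `K = 0`: let `v = s x0 w` be in the range of `e (pol x0)`; for small
`t > 0`, `‖s x0 (t w)‖ < ρ` and `0 ≤ -(3/4) γ (pol x0, t v) (F t v) (F t v)`, `F = FF B x0`, where `F t v`
is in the range of `e (pol x0)`; by `IsFibre.pos`, `F t v = 0`, so `F v = 0`.  So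
`F (e (pol x0) u) = 0` for all `u`. -/
def G_KC : Prop := ∀ (m : ℤ) (k n : ℕ) (e : W → En n) (B : W → W →L[ℝ] En n)
  (gM : W → W →L[ℝ] W →L[ℝ] ℝ) (γ : W × V n → V n →L[ℝ] V n →L[ℝ] ℝ) (ρ : ℝ),
  IsBundle m k e B → IsBase m gM → IsFibre m ρ e γ → 0 < ρ → TubeSec m k ρ e B gM γ →
  ∀ x0 ∈ Reg, ∀ K, IsCurv (gB gM pol) x0 (1, 0, 0, 0) (0, 1, 0, 0) K →
    0 ≤ K ∧ (K = 0 → FF B x0 * e (pol x0) = 0)

/-- **G-BX** (the base metric in polar coordinates; uses `G_PL`, `G_G3`).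
Proof.  `gB gM pol x = gM(pol x)(Dpol ·)(Dpol ·)` is `C²` (`gM`, `pol` are `C³`), symmetric by
`IsBase.symm` (`Dpol a ∈ TX`), positive definite by `IsBase.pos` and the transversality in `G_PL` (if
`Dpol a = τ orb` then `a = 0`).  `G_G3` gives `K`. -/
def G_BX : Prop := ∀ (m : ℤ) (gM : W → W →L[ℝ] W →L[ℝ] ℝ), IsBase m gM →
  ContDiff ℝ 2 (gB gM pol) ∧ (∀ x u v, gB gM pol x u v = gB gM pol x v u) ∧
  (∀ x ∈ Reg, ∀ u, u ≠ 0 → 0 < gB gM pol x u u) ∧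
  ∀ x ∈ Reg, ∃ K, IsCurv (gB gM pol) x (1, 0, 0, 0) (0, 1, 0, 0) K

/-- **G-SP** (product metrics; uses `G_PL`, `G_BX`).

Proof.  With `p(r,α) = (cos r, e^{iα} sin r)`, `q(θ,β) = (e^{iβ} sin θ, cos θ)`:
`h x u v := gB gM pol x u v = H(p)(Dp u)(Dp v) + K(q)(Dq u)(Dq v)` where `Dp u` only depends on
`u_r, u_α` (and `r, α`), `Dq u` on `u_θ, u_β` (and `θ, β`).  Call `u` of type 1 if `u_θ = u_β = 0`, of
type 2 if `u_r = u_α = 0`.  `h x u v = 0` if `u, v` have different types; `h x u v` only depends on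
`r, α` if both have type 1, on `θ, β` if both have type 2.
Let `cab, caa, cbb` be as in `IsCurv` (`a = ∂r` of type 1, `b = ∂θ` of type 2; they exist by `G_BX`),
with the number `K₀`; we show `K₀ = 0`.  `h b b` does not depend on `r`, `h a a` not on `θ`,
`h a b = 0`: the second derivatives vanish.  `Gam h x a b u = 0` for all `u` (check `u` of type 1 and 2),
so `h x cab cab = 0`.  `Gam h x a a u = 0` for `u` of type 2, `Gam h x b b u = 0` for `u` of type 1.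
Write `caa = u₁ + u₂`, `cbb = v₁ + v₂` by types: `h caa v₂ = Gam h x a a v₂ = 0`,
`h caa v₁ = h u₁ v₁ = h v₁ u₁ = h cbb u₁ = Gam h x b b u₁ = 0`.  So `h x caa cbb = 0`. -/
def G_SP : Prop := ∀ (gM : W → W →L[ℝ] W →L[ℝ] ℝ)
  (H : ℂ × ℂ → (ℂ × ℂ) →L[ℝ] (ℂ × ℂ) →L[ℝ] ℝ) (K : ℂ × ℝ → (ℂ × ℝ) →L[ℝ] (ℂ × ℝ) →L[ℝ] ℝ),
  IsBase 0 gM → ContDiff ℝ 3 H → ContDiff ℝ 3 K →
  (∀ P ∈ X, ∀ u ∈ TX P, ∀ u' ∈ TX P, gM P u u' = H P.1 u.1 u'.1 + K P.2 u.2 u'.2) →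
  ∀ x ∈ Reg, IsCurv (gB gM pol) x (1, 0, 0, 0) (0, 1, 0, 0) 0

/-- `f(θ) = φ(cos θ)` -/
noncomputable def fφ (φ : ℝ → ℝ) (θ : ℝ) : ℝ := φ (Real.cos θ)

/-- `A(θ) = K(∂θ,∂θ)`, the square of the speed of the meridian -/
noncomputable def AK (K : ℂ × ℝ → (ℂ × ℝ) →L[ℝ] (ℂ × ℝ) →L[ℝ] ℝ) (θ : ℝ) : ℝ :=
  K ((Real.sin θ : ℂ), Real.cos θ) ((Real.cos θ : ℂ), -Real.sin θ)
    ((Real.cos θ : ℂ), -Real.sin θ)

/-- **G-SR1** (curvature for the rotationally symmetric metrics; uses `G_PL`, `G_BX`).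

Proof.  `h = gB gM pol`, `p(r,α) = (cos r, e^{iα} sin r)`, `q(θ,β) = (e^{iβ} sin θ, cos θ)`.
`kap` of `Dpol ∂r` is `0`, of `Dpol ∂θ` is `∂θ q`, of `Dpol ∂β` is `∂β q`, of `Dpol ∂α` is
`-m sin² r ∂β q` (`eta(Dpol ∂α) = sin² r`, the other `eta` are `0`).
`K(q)(∂θ q)(∂θ q) = A(θ)` (rotation by `e^{iβ}`), `K(q)(∂θ q)(∂β q) = 0`: if `sin θ ≠ 0` this is the
second part of `hK` since `(-(t z), 1 - t²) = -sin θ ∂θ q`; if `sin θ = 0`, `∂β q = 0`.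
So for all `x, u`: `h x ∂θ u = A(θ) u_θ`, and `h x ∂r u = f(θ)² Λ(x,u)` where
`Λ(x,u) = H(p)(∂r p)(Dp u)` depends on `r, α` only (and on `u_r, u_α`), `f(θ) = φ(cos θ)`.  Put
`Hrr = Λ(x,∂r)`; `f² Hrr = h x ∂r ∂r > 0`.  `h` is symmetric.
* `Gam h x ∂r ∂θ u = (1/2)(∂_r (A u_θ) + ∂_θ (f² Λ(x,u)) - ∂_u (h ∂r ∂θ)) = f f' Λ(x,u) =
  (f'/f) h x ∂r u`: `cab = (f'/f) ∂r`.
* `Gam h x ∂θ ∂θ u = ∂_θ (A u_θ) - (1/2) ∂_u A(θ) = (1/2) A' u_θ = (A'/(2A)) h x ∂θ u`: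
  `cbb = (A'/(2A)) ∂θ`.
* `caa` exists by `G_BX`; `h x caa cbb = (A'/(2A)) h x caa ∂θ = (A'/(2A)) Gam h x ∂r ∂r ∂θ
  = (A'/(2A)) (∂_r (h ∂r ∂θ) - (1/2) ∂_θ (f² Hrr)) = -(A'/(2A)) f f' Hrr`.
* second derivatives: `dd (h ∂θ ∂θ) ∂r ∂r = 0`, `dd (h ∂r ∂θ) = 0`,
  `dd (h ∂r ∂r) ∂θ ∂θ = (f²)'' Hrr = 2 (f'² + f f'') Hrr`.
* Sum: `-(f'² + f f'') Hrr + (f'/f)² f² Hrr + (A'/(2A)) f f' Hrr = Hrr f ((A'/(2A)) f' - f'')`. -/
def G_SR1 : Prop := ∀ (m : ℤ) (gM : W → W →L[ℝ] W →L[ℝ] ℝ) (φ : ℝ → ℝ)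
  (H : ℂ × ℂ → (ℂ × ℂ) →L[ℝ] (ℂ × ℂ) →L[ℝ] ℝ) (K : ℂ × ℝ → (ℂ × ℝ) →L[ℝ] (ℂ × ℝ) →L[ℝ] ℝ),
  IsBase m gM → ContDiff ℝ 3 φ → (∀ t, 0 < φ t) → ContDiff ℝ 3 H → ContDiff ℝ 3 K →
  (∀ P ∈ X, ∀ u ∈ TX P, ∀ u' ∈ TX P,
    gM P u u' = φ P.2.2 ^ 2 * H P.1 u.1 u'.1 + K P.2 (kap m P u) (kap m P u')) →
  (∀ ζ : ℂ, ‖ζ‖ = 1 → ∀ q ∈ S2, ∀ a b : ℂ × ℝ,
      K (ζ * q.1, q.2) (ζ * a.1, a.2) (ζ * b.1, b.2) = K q a b) →
  (∀ q ∈ S2, K q (-(q.2 * q.1), 1 - q.2 ^ 2) (Complex.I * q.1, 0) = 0) →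
  (∀ θ, 0 < AK K θ) ∧
  ∀ x ∈ Reg, ∃ Hrr : ℝ, 0 < Hrr ∧ IsCurv (gB gM pol) x (1, 0, 0, 0) (0, 1, 0, 0)
    (Hrr * fφ φ x.2.1 * (deriv (AK K) x.2.1 / (2 * AK K x.2.1) * deriv (fφ φ) x.2.1 -
      deriv (deriv (fφ φ)) x.2.1))

/-- **G-SR2** (real analysis).
Proof.  `ψ = f' / √A` is continuous on `[0,π]`, differentiable inside with
`ψ' = (f'' - (A'/(2A)) f')/√A ≤ 0`: antitone on `[0,π]`, and `ψ 0 = ψ π = 0`, so `ψ = 0`. -/
def G_SR2 : Prop := ∀ (f A : ℝ → ℝ), ContDiff ℝ 2 f → ContDiff ℝ 1 A →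
  (∀ t ∈ Icc (0 : ℝ) Real.pi, 0 < A t) → deriv f 0 = 0 → deriv f Real.pi = 0 →
  (∀ t ∈ Ioo (0 : ℝ) Real.pi, deriv (deriv f) t ≤ deriv A t / (2 * A t) * deriv f t) →
  ∀ t ∈ Icc (0 : ℝ) Real.pi, deriv f t = 0

/-- **G-STD** (the standard metrics with `κ(∂r,∂θ) ≥ 0` are flat on the planes `∂r, ∂θ`; uses `G_SP`,
`G_SR1`, `G_SR2`).
Proof.  If `m = 0` and `φ = 1`: `kap 0 P u = u.2`, `G_SP`.  Otherwise take the formula of `G_SR1`.  For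
`θ ∈ (0,π)` the point `(π/4, θ, 0, 0)` is in `Reg`, and `κ ≥ 0`, `Hrr > 0`, `f > 0` give
`f'' ≤ (A'/(2A)) f'`.  `f'(θ) = -sin θ φ'(cos θ)` vanishes at `0, π`.  `G_SR2`: `f' = 0` on `[0,π]`;
`f` is even and `2π`-periodic, so `f' = 0` everywhere, `f'' = 0`, and the curvature number is `0` at all
regular points. -/
def G_STD : Prop := ∀ (m : ℤ) (gM : W → W →L[ℝ] W →L[ℝ] ℝ), IsBase m gM → Standard m gM →
  (∀ x ∈ Reg, ∀ K, IsCurv (gB gM pol) x (1, 0, 0, 0) (0, 1, 0, 0) K → 0 ≤ K) →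
  ∀ x ∈ Reg, IsCurv (gB gM pol) x (1, 0, 0, 0) (0, 1, 0, 0) 0

/-- **G-DAT** (the data of the ODE part; uses `G_PL`).
Proof.  Smoothness: `pol` is `C³`, so `x ↦ fderiv ℝ pol x (1,0,0,0)` is `C²`.  `idem, symm, skb, skc`:
`IsBundle` and `pol x ∈ X`, `Dpol a ∈ TX`.  `dr, dt`: chain rule and `IsBundle.par`.  `flat`: on `Reg`
by hypothesis, and `Reg` is dense in `R4`, `FF B x * e (pol x)` is continuous.  `perα, perβ`: the formulas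
for `pol x` and `fderiv ℝ pol x` in `G_PL` (`exp (i(α + 2π)) = exp (iα)`).  `r0`: at `r = 0`,
`pol = ((1,0),q)`, `Dpol ∂θ = (0, ∂θ q)` do not depend on `α`.  `t0, t1`: at `θ = 0, π`,
`pol = (p,(0,±1))`, `Dpol ∂r = (∂r p, 0)` do not depend on `β`.  `r1`: at `r = π/2`,
`pol (π/2,θ,α,β) = ((0,e^{iα}),(e^{iβ} sin θ, cos θ)) = act m e^{iα} (pol (π/2,θ,0,β - mα))`, and
`Dpol ∂θ` transforms in the same way (`fderiv ℝ pol x (0,1,0,0) = (0,(e^{iβ} cos θ, -sin θ))`); use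
`IsBundle.inv, inv_B`. -/
def G_DAT : Prop := ∀ (m : ℤ) (k n : ℕ) (e : W → En n) (B : W → W →L[ℝ] En n), IsBundle m k e B →
  (∀ x ∈ Reg, FF B x * e (pol x) = 0) → Dat m (fun x => e (pol x)) (bb B) (cc B)

end Pool.Agent.Helper61.QS
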