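import Pool.Agent.Helper61.QS.Basic

/-!
# Project QS (MP_0ebdb3_gt), block C: the matrix / homotopy core

All statements are about real orthogonal `k × k` operators (`En k`, `star` = adjoint).  See
`Basic.lean` for `tr`, `UC S`, `IsPath`, `Htp` and their first properties (trace facts are PROVED
there).  A packet may use the other goals as hypotheses (`theorem goalXX (h : G_YY) : G_XX`), as
indicated in the doc-strings.

Overview.  The block proves `G_CORE`.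
-/

set_option autoImplicit false

open Set NormedSpace

namespace Pool.Agent.Helper61.QS

/-! ### Paths in the group `UC S` -/

/-- **C-SEG** (Cayley segments).  For orthogonal `a` with `‖a - 1‖ < 2` a segment from `1` to `a`
inside the orthogonal operators, in the double commutant of `a`.

Proof.  `a + 1 = 2 (1 - (1 - a)/2)` is invertible (`‖(1-a)/2‖ < 1`), put
`C a = (a - 1) (a + 1)⁻¹` (use `Ring.inverse`), `seg a τ = (1 + τ C) (1 - τ C)⁻¹`.
`C` is skew: `star a = a⁻¹`, so `star C = (star a + 1)⁻¹ (star a - 1) = (a⁻¹ + 1)⁻¹ (a⁻¹ - 1)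
= (1 + a)⁻¹ a a⁻¹ (1 - a) = -C` (everything commutes).  `1 - τ C` is injective, hence invertible:
`‖(1 - τC) x‖² = ‖x‖² + τ² ‖C x‖²` because `⟪x, C x⟫ = 0`; this also gives `‖(1 - τC)⁻¹‖ ≤ 1`.
`star (1 + τC) = 1 - τC`, and the two factors commute, so `seg a τ` is orthogonal.  `seg a 0 = 1`;
`1 + C = 2a (a+1)⁻¹`, `1 - C = 2 (a+1)⁻¹`, so `seg a 1 = a`.  If `x a = a x` then `x` commutes with
`a ± 1`, with the inverse, with `C`, with `seg a τ`.  Continuity in `(a, τ)`: composition of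
continuous maps, `Ring.inverse` is continuous at units (`NormedRing.inverse_continuousAt`).
Last item: `seg a τ = -1 + 2 (1 - τC)⁻¹`, so
`seg a τ - seg a τ' = 2 (1 - τC)⁻¹ (τ - τ') C (1 - τ'C)⁻¹`, of norm `≤ 2 |τ - τ'| ‖C‖`, and
`‖C‖ ≤ ‖a - 1‖ ‖(a+1)⁻¹‖ ≤ ‖a - 1‖` because `‖(a+1) x‖ ≥ 2‖x‖ - ‖(a-1)x‖ ≥ ‖x‖`. -/
def G_SEG : Prop := ∀ k : ℕ, ∃ seg : En k → ℝ → En k,
  (∀ a ∈ unitary (En k), ‖a - 1‖ < 2 → seg a 0 = 1 ∧ seg a 1 = a ∧
    (∀ τ, seg a τ ∈ unitary (En k)) ∧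
    (∀ τ x, x * a = a * x → x * seg a τ = seg a τ * x)) ∧
  ContinuousOn (fun q : En k × ℝ => seg q.1 q.2)
    ({a | a ∈ unitary (En k) ∧ ‖a - 1‖ < 2} ×ˢ (univ : Set ℝ)) ∧
  (∀ a ∈ unitary (En k), ‖a - 1‖ ≤ 1 → ∀ τ τ',
    ‖seg a τ - seg a τ'‖ ≤ 2 * |τ - τ'| * ‖a - 1‖)

/-- **C-HEQ** (homotopy is an equivalence relation, and close paths are homotopic; uses `G_SEG`).

Proof.  Reflexive: `H s t = p t`.  Symmetric: `H (1 - s) t`.  Transitive: `H (2s) t` for `s ≤ 1/2`,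
`H' (2s - 1) t` for `s ≥ 1/2` (`ContinuousOn.if`, or work with `max/min`:
`H (min 1 (2s)) t * star (q t) * H' (max 0 (2s-1)) t`, which is a product of elements of `UC S`, so no
case distinction is needed at all: at `s ≤ 1/2` it is `H(2s,t) q⋆ q`, at `s ≥ 1/2` it is
`q q⋆ H'(2s-1,t)`; end points: at `t = 0`: `p 0 * star (q 0) * q 0` with `q 0 = p 0`).
Close: if `‖p t - q t‖ < 2`, then `a t = star (p t) * q t` has `‖a t - 1‖ = ‖p⋆ (q - p)‖ < 2`,
put `H s t = p t * seg (a t) s`.  It lies in `UC S` (`seg` is orthogonal and commutes with the `x` that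
commute with `a t`), `H 0 t = p t`, `H 1 t = q t`; at `t = 0, 1` we have `a t = 1`, and `seg 1 s = 1` by
the last item of `G_SEG` (with `a = 1`, `τ' = 0`). -/
def G_HEQ : Prop := ∀ (k : ℕ) (S : Set (En k)),
  (∀ p, IsPath S p → Htp S p p) ∧
  (∀ p q, Htp S p q → Htp S q p) ∧
  (∀ p q r, Htp S p q → Htp S q r → Htp S p r) ∧
  (∀ p q, IsPath S p → IsPath S q → p 0 = q 0 → p 1 = q 1 →
    (∀ t ∈ Icc (0 : ℝ) 1, ‖p t - q t‖ < 2) → Htp S p q)

/-- the broken path with `N` pieces `seg (a i)`, run through with constant speed -/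
noncomputable def poly {k : ℕ} (seg : En k → ℝ → En k) {N : ℕ} (a : Fin N → En k) (t : ℝ) : En k :=
  (List.ofFn fun i : Fin N => seg (a i) (max 0 (min 1 (N * t - i)))).prod

/-- the properties of `seg` in `G_SEG`, as a predicate -/
def IsSeg {k : ℕ} (seg : En k → ℝ → En k) : Prop :=
  (∀ a ∈ unitary (En k), ‖a - 1‖ < 2 → seg a 0 = 1 ∧ seg a 1 = a ∧
    (∀ τ, seg a τ ∈ unitary (En k)) ∧
    (∀ τ x, x * a = a * x → x * seg a τ = seg a τ * x)) ∧
  ContinuousOn (fun q : En k × ℝ => seg q.1 q.2)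
    ({a | a ∈ unitary (En k) ∧ ‖a - 1‖ < 2} ×ˢ (univ : Set ℝ)) ∧
  (∀ a ∈ unitary (En k), ‖a - 1‖ ≤ 1 → ∀ τ τ',
    ‖seg a τ - seg a τ'‖ ≤ 2 * |τ - τ'| * ‖a - 1‖)

/-- the compact set of admissible tuples with product `ϖ` -/
def KK {k : ℕ} (S : Set (En k)) (N : ℕ) (ϖ : En k) : Set (Fin N → En k) :=
  {a | (∀ i, a i ∈ UC S ∧ ‖a i - 1‖ ≤ 1) ∧ (List.ofFn a).prod = ϖ}

/-- **C-PGA** (broken paths).

Proof.  (1) Every factor is in `UC S` and continuous in `t`; at `t = 0` all clamped parameters are `0`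
and `seg _ 0 = 1`; at `t = 1` the `i`-th one is `min 1 (N - i) = 1` (as `i ≤ N - 1`), so the product is
`∏ a i`.  (2) Lipschitz: the `i`-th factor `f i t` satisfies `‖f i t - f i t'‖ ≤ 2 N |t - t'|`
(clamping is 1-Lipschitz and `‖a i - 1‖ ≤ 1`), and a product of `N` factors of norm `≤ 1` is Lipschitz
with constant the sum of the constants (induction on the list).  (3) `(a, t) ↦ poly seg a t` is
continuous on `KK' × [0,1]` (`KK'` = tuples with `a i ∈ UC S`, `‖a i - 1‖ ≤ 1`: finite product of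
continuous maps).  `KK S N ϖ` is compact (closed subset of the compact product of
`UC S ∩ {‖a - 1‖ ≤ 1}`, `UC.isCompact`, `isCompact_univ_pi`).  A continuous function on a compact set
is uniformly continuous (`IsCompact.uniformContinuousOn_of_continuous`), which gives `δ`. -/
def G_PGA : Prop := ∀ (k : ℕ) (S : Set (En k)) (seg : En k → ℝ → En k), IsSeg seg →
  ∀ (N : ℕ) (ϖ : En k),
    IsCompact (KK S N ϖ) ∧
    (∀ a ∈ KK S N ϖ, IsPath S (poly seg a) ∧ poly seg a 0 = 1 ∧ poly seg a 1 = ϖ ∧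
      ∃ L : ℝ, ∀ t ∈ Icc (0 : ℝ) 1, ∀ t' ∈ Icc (0 : ℝ) 1,
        ‖poly seg a t - poly seg a t'‖ ≤ L * |t - t'|) ∧
    ∃ δ > 0, ∀ a ∈ KK S N ϖ, ∀ a' ∈ KK S N ϖ, (∀ i, ‖a i - a' i‖ < δ) →
      ∀ t ∈ Icc (0 : ℝ) 1, ‖poly seg a t - poly seg a' t‖ < 2

/-- **C-PGB** (a path is close to the broken path through sufficiently many of its points).

Proof.  Let `a i = star (p (i/N)) * p ((i+1)/N)`.  It is in `UC S`, and
`‖a i - 1‖ = ‖p ((i+1)/N) - p (i/N)‖ ≤ 1/4`.  The product `a 0 ⋯ a (i-1)` telescopes to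
`p (i/N)` (`p 0 = 1`), in particular `∏ a = p 1`.  For `t ∈ [i/N, (i+1)/N]` the factors `j < i` of
`poly seg a t` are `seg (a j) 1 = a j`, the `i`-th one is `seg (a i) (N t - i)`, the later ones are
`seg (a j) 0 = 1`; so `poly seg a t = p (i/N) * seg (a i) (N t - i)` and
`‖poly seg a t - p (i/N)‖ ≤ ‖seg (a i) (Nt - i) - seg (a i) 0‖ ≤ 2 ‖a i - 1‖ ≤ 1/2`, while
`‖p t - p (i/N)‖ ≤ 1/4`. -/
def G_PGB : Prop := ∀ (k : ℕ) (S : Set (En k)) (seg : En k → ℝ → En k), IsSeg seg →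
  ∀ (p : ℝ → En k), IsPath S p → p 0 = 1 → ∀ N : ℕ, 0 < N →
    (∀ t ∈ Icc (0 : ℝ) 1, ∀ t' ∈ Icc (0 : ℝ) 1, |t - t'| ≤ 1 / N → ‖p t - p t'‖ ≤ 1 / 4) →
    (fun i : Fin N => star (p (i / N)) * p ((i + 1) / N)) ∈ KK S N (p 1) ∧
    ∀ t ∈ Icc (0 : ℝ) 1,
      ‖poly seg (fun i : Fin N => star (p (i / N)) * p ((i + 1) / N)) t - p t‖ < 2

/-- **C-EQ** (two consecutive pieces of a broken path of maximal trace are equal).

Proof.  (1) `X = a - b`, `Y = X - star X` is skew and commutes with `S` (`a, b ∈ UC S`, hence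
`star a, star b ∈ UC S`).  By hypothesis `tr (a Y) = tr (Y b)`, i.e. `tr (Y X) = 0`.  Taking adjoints
`tr (Y X⋆) = tr (X Y⋆) = -tr (X Y) = -tr (Y X) = 0`.  So `tr (Y Y) = 0` and `Y = 0`
(`eq_zero_of_skew`): `a - b = star a - star b`.  (2) `star a - star b = star a * (b - a) * star b`
(`a, b` orthogonal), so `D = a - b` satisfies `D = - star a * D * star b`, i.e. `a D b = -D`.  Write
`a D b = D + (a - 1) D + a D (b - 1)`; so `2 D = -((a - 1) D + a D (b - 1))` and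
`2 ‖D‖ ≤ (‖a - 1‖ + ‖b - 1‖) ‖D‖` with `‖a - 1‖ + ‖b - 1‖ < 2`, so `D = 0`. -/
def G_EQ : Prop := ∀ (k : ℕ) (S : Set (En k)) (a b : En k), a ∈ UC S → b ∈ UC S →
  ‖a - 1‖ < 1 → ‖b - 1‖ < 1 →
  (∀ Y : En k, star Y = -Y → (∀ s ∈ S, s * Y = Y * s) → tr (a * Y) = tr (Y * b)) → a = b

/-- **C-CPA** (a path from `1` is homotopic to broken paths of arbitrarily small energy; uses
`G_SEG`, `G_HEQ`, `G_PGA`, `G_PGB`).

Proof.  Uniform continuity of `p` on `[0,1]` gives `N₀` for which `G_PGB` applies; the broken path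
`q = poly seg a₀` is homotopic to `p` (`G_HEQ`, last item: both are paths in `UC S` from `1` to `p 1`)
and Lipschitz with some constant `L ≥ 0` (`G_PGA`).  For `N ≥ 4 L`, `N ≥ 1`, `G_PGB` applies to `q`;
the tuple `a i = star (q (i/N)) * q ((i+1)/N)` has
`tr (star (a i - 1) * (a i - 1)) ≤ k ‖a i - 1‖² ≤ k L² / N²` (`tr_le_norm_sq`), hence by `tr_unitary`
`2 ∑ (k - tr (a i)) ≤ k L² / N < 1` for `N` large.  And `poly seg a` is homotopic to `q`, hence to `p`.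
-/
def G_CPA : Prop := ∀ (k : ℕ) (S : Set (En k)) (seg : En k → ℝ → En k), IsSeg seg →
  ∀ (p : ℝ → En k), IsPath S p → p 0 = 1 →
    ∃ N : ℕ, 0 < N ∧ ∃ a ∈ KK S N (p 1), Htp S p (poly seg a) ∧
      2 * ∑ i, ((k : ℝ) - tr (a i)) < 1

/-- **C-CPB** (the minimum of the energy in a homotopy class; uses `G_HEQ`, `G_PGA`, `G_EQ`,
`G_CPA`).

Proof.  Take `N` and `a₀` from `G_CPA`.  The set `K₁ = {a ∈ KK S N (p 1) | Htp S p (poly seg a)}` is
compact: it is closed in the compact set `KK` because `KK ∖ K₁` and `K₁` are both relatively open: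
if `‖a i - a' i‖ < δ` for all `i` then `poly seg a ~ poly seg a'` by `G_PGA` (last item) and `G_HEQ`.
So `f a = ∑ tr (a i)` has a maximum on `K₁` at some `a`; `f a ≥ f a₀`, so
`∑ tr (star (a i - 1) (a i - 1)) = 2 ∑ (k - tr (a i)) < 1` (`tr_unitary`), each term is `≥ 0`, so
`‖a i - 1‖² ≤ tr (star (a i - 1) (a i - 1)) < 1` (`norm_sq_le_tr`) for every `i`.
Let `i, i+1 < N` be consecutive and `Y` skew commuting with `S`.  For small `|t|` the tuple `a^t`
obtained by replacing `a i` by `a i * exp (t Y)` and `a (i+1)` by `exp (-t Y) * a (i+1)` is in `KK`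
(same product; `exp (tY)` is orthogonal and commutes with `S`; the inequalities `‖·-1‖ < 1` are open)
and in `K₁` (it is within `δ` of `a`).  So `t ↦ tr (a i exp (tY)) + tr (exp (-tY) a (i+1))` has a local
maximum at `0` and its derivative `tr (a i Y) - tr (Y a (i+1))` is `0`.  By `G_EQ`
`a i = a (i+1)`.  So all `a i` are equal to some `b ∈ UC S` (`N > 0`). -/
def G_CPB : Prop := ∀ (k : ℕ) (S : Set (En k)) (seg : En k → ℝ → En k), IsSeg seg →
  ∀ (p : ℝ → En k), IsPath S p → p 0 = 1 →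
    ∃ (N : ℕ) (b : En k), b ∈ UC S ∧ ‖b - 1‖ ≤ 1 ∧ (fun _ : Fin N => b) ∈ KK S N (p 1) ∧
      Htp S p (poly seg (fun _ : Fin N => b))

/-- **C-CP** (every path from `1` in `UC S` is homotopic rel end points to a path in the double
commutant of one element; uses `G_SEG`, `G_CPB`, `G_PGA`).

Proof.  Take `seg` from `G_SEG` and `b` from `G_CPB`, `q = poly seg (fun _ => b)`.  If `x b = b x` then
`x` commutes with every `seg b τ` (`G_SEG`; `‖b - 1‖ ≤ 1 < 2`), hence with the product. -/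
def G_CP : Prop := ∀ (k : ℕ) (S : Set (En k)) (p : ℝ → En k), IsPath S p → p 0 = 1 →
  ∃ (b : En k) (q : ℝ → En k), b ∈ UC S ∧ Htp S p q ∧
    ∀ t ∈ Icc (0 : ℝ) 1, ∀ x, x * b = b * x → x * q t = q t * x

/-- **C-CW** (two skew operators can be made to commute by a path; uses `G_SEG`).

Proof.  Let `C₀` be the set of the `w` in `UC S` which are joined to `1` inside `UC S` (`JoinedIn`).
It is compact: if `w ∈ UC S`, `w' ∈ UC S` and `‖w - w'‖ < 2`, then `t ↦ w * seg (star w * w') t` joins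
`w` to `w'` in `UC S`; so `C₀` and `UC S ∖ C₀` are relatively open in the compact `UC S`
(`UC.isCompact`), `C₀` is closed in it.  Let `w₁` maximise `f w = tr (w * B * star w * A)` on `C₀`, and
`B' = w₁ B w₁⋆` (skew, commutes with `S`).  For `Y` skew commuting with `S`,
`exp (tY) * w₁ ∈ C₀` for all `t` (path `s ↦ exp (s t Y) w₁`), so the derivative at `0` of
`t ↦ tr (exp (tY) B' exp (-tY) A)` vanishes: `tr ((Y B' - B' Y) A) = 0`, i.e.
`tr (Y (B' A - A B')) = 0`.  `Y := B' A - A B'` is skew and commutes with `S`; so `tr (Y Y) = 0`,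
`Y = 0` (`eq_zero_of_skew`). -/
def G_CW : Prop := ∀ (k : ℕ) (S : Set (En k)) (A B : En k), star A = -A → star B = -B →
  (∀ s ∈ S, s * A = A * s) → (∀ s ∈ S, s * B = B * s) →
  ∃ w : ℝ → En k, Continuous w ∧ w 0 = 1 ∧ (∀ t, w t ∈ UC S) ∧
    (w 1 * B * star (w 1)) * A = A * (w 1 * B * star (w 1))

/-! ### Commuting normal operators split into planes -/

/-- **C-CLA** (invariant planes).

Proof.  Let `W` be an invariant subspace (for all `x ∈ S` and `star x`, `x ∈ S`) with `dim W ≥ 1`, and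
take `W₁ ⊆ W` invariant, nonzero, of minimal dimension.  Claim: `dim W₁ ≤ 2`.  Let `𝒜` be the set of
operators commuting with `S` and `star S`... precisely: if `T` is self-adjoint, commutes with all
`x, star x` (`x ∈ S`) and maps `W₁` into itself then `T` has an eigenvector in `W₁`
(`LinearMap.IsSymmetric` on `W₁`), its eigenspace in `W₁` is invariant, nonzero, hence all of `W₁`:
`T` is a scalar on `W₁`.  Apply this to `T = x + star x`, so on `W₁` every `x ∈ S` is a scalar plus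
`y_x = (x - star x)/2`, and to `T = y_x y_x'` (it is self-adjoint: `(y y')⋆ = y'⋆ y⋆ = y' y = y y'`):
`y_x y_x' = λ` on `W₁`.  If all `y_x` vanish on `W₁` then any line in `W₁` is invariant, so
`dim W₁ = 1`.  Otherwise fix `y = y_x` with `y ≠ 0` on `W₁`; `y² = -c²` on `W₁` (a scalar, `≤ 0` as
`⟪y²v, v⟫ = -‖y v‖²`, and `≠ 0`), so from `y y' = λ` we get `y' = -(λ/c²) y` on `W₁`: for `v ≠ 0` in
`W₁` the span of `v, y v` is invariant, of dimension `≤ 2`.
Conclusion: if `dim W ≥ 2` take `W₁ ⊆ W` invariant of dimension 1 or 2.  If it is 2 we are done.  If it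
is 1, `W₂ = W ∩ W₁ᗮ` is invariant and nonzero, take `W₃ ⊆ W₂` invariant of dimension 1 or 2: in the
first case `W₁ ⊔ W₃` works, in the second `W₃`. -/
def G_CLA : Prop := ∀ (k : ℕ) (S : Set (En k)),
  (∀ x ∈ S, ∀ y ∈ S, x * y = y * x ∧ x * star y = star y * x) →
  ∀ W : Submodule ℝ (V k), (∀ x ∈ S, ∀ v ∈ W, x v ∈ W ∧ (star x) v ∈ W) →
    2 ≤ Module.finrank ℝ W →
    ∃ P : Submodule ℝ (V k), P ≤ W ∧ Module.finrank ℝ P = 2 ∧
      ∀ x ∈ S, ∀ v ∈ P, x v ∈ P ∧ (star x) v ∈ P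

/-- **C-CLB** (splitting into planes and at most one line; uses `G_CLA`).

Proof.  Prove by strong induction on `d = dim W`: every invariant `W` is an orthogonal sum of
invariant subspaces `P_j`, `j : Fin N`, of dimensions 2, except that `P_0` may be of dimension 1
(formulate with projections: `∃ N π, ... ∑ π_j = projection onto W`, and `π_j` maps into `W`).
`d = 0`: `N = 0`; `d = 1`: `N = 1`.  `d ≥ 2`: take `P ⊆ W` from `G_CLA` and apply the induction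
hypothesis to `W ∩ Pᗮ` (invariant, dimension `d - 2`); append `P` at the END of the list
(`Fin.snoc`), so that the line, if any, keeps the index 0 — if the list for `W ∩ Pᗮ` is empty then `P`
gets the index 0, which is fine.  `π_j` = orthogonal projection onto `P_j`
(`Submodule.starProjection` or `(P_j).subtypeL ∘ orthogonalProjection`); it commutes with `x ∈ S`
because `P_j` and `P_jᗮ` are invariant under `x` (`P_j` is invariant under `star x`).
Finally `W = ⊤`. -/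
def G_CLB : Prop := ∀ (k : ℕ) (S : Set (En k)),
  (∀ x ∈ S, ∀ y ∈ S, x * y = y * x ∧ x * star y = star y * x) →
  ∃ (N : ℕ) (π : Fin N → En k),
    (∀ j, π j * π j = π j ∧ star (π j) = π j ∧ ∀ x ∈ S, x * π j = π j * x) ∧
    (∀ i j, i ≠ j → π i * π j = 0) ∧ ∑ j, π j = 1 ∧
    ∀ j, tr (π j) = 2 ∨ (tr (π j) = 1 ∧ j.val = 0)

/-! ### The relation `Ψ (β - mα) hN α = hS α Ψ β` -/

/-- the hypotheses of the core theorem -/
structure Loops (k : ℕ) (m : ℤ) (hN hS Ψ : ℝ → En k) : Prop where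
  uN : ∀ α, hN α ∈ unitary (En k)
  uS : ∀ α, hS α ∈ unitary (En k)
  uΨ : ∀ β, Ψ β ∈ unitary (En k)
  cN : Continuous hN
  cS : Continuous hS
  cΨ : Continuous Ψ
  pN : ∀ α, hN (α + 2 * Real.pi) = hN α
  pS : ∀ α, hS (α + 2 * Real.pi) = hS α
  pΨ : ∀ β, Ψ (β + 2 * Real.pi) = Ψ β
  N0 : hN 0 = 1
  S0 : hS 0 = 1
  Ψ0 : Ψ 0 = 1
  dN : DifferentiableAt ℝ hN 0
  dS : DifferentiableAt ℝ hS 0
  rel : ∀ α β, Ψ (β - m * α) * hN α = hS α * Ψ β

/-- **C-CD** (`m ≠ 0`: `Ψ` is a product of two one-parameter groups).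

Proof.  Let `XN, XS` be the derivatives of `hN, hS` at `0`.  They are skew (differentiate
`star (hN α) * hN α = 1` at `0`).  For fixed `β`, `Ψ γ = hS ((β-γ)/m) Ψ β (hN ((β-γ)/m))⋆`, so `Ψ` is
differentiable at `β` with `Ψ' β = -(1/m) (XS Ψ β - Ψ β XN)`.  Hence
`Q β = exp ((β/m) XS) * Ψ β * exp (-(β/m) XN)` has derivative `0`, `Q 0 = 1`, `Q = 1`: this is
the formula for `Ψ`.  With it `Ψ (β - mα) = exp (αXS) exp (-(β/m)XS) exp ((β/m)XN) exp (-αXN)
= exp (αXS) Ψ β exp (-αXN)`, and the relation becomes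
`exp (αXS) * Ψ β * (exp (-αXN) * hN α) = hS α * Ψ β`.  At `β = 0`:
`exp (-αXN) hN α = exp (-αXS) hS α =: K α`, and in general `Ψ β * K α = K α * Ψ β`. -/
def G_CD : Prop := ∀ (k : ℕ) (m : ℤ) (hN hS Ψ : ℝ → En k), m ≠ 0 → Loops k m hN hS Ψ →
  ∃ XN XS : En k, star XN = -XN ∧ star XS = -XS ∧
    (∀ β : ℝ, Ψ β = exp (-(β / m) • XS) * exp ((β / m) • XN)) ∧
    (∀ α : ℝ, exp (-α • XN) * hN α = exp (-α • XS) * hS α) ∧
    ∀ α β : ℝ, Ψ β * (exp (-α • XN) * hN α) = exp (-α • XN) * hN α * Ψ β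

/-- **C-CE** (split off the part of the generators in the commutant of `Ψ`).

Proof.  `𝒞 = {c | ∀ β, c Ψ β = Ψ β c}` is a linear subspace, closed under products and `star`
(`comm_star`).  Let `Y0` be the orthogonal projection of `XN` to `𝒞` for the inner product
`⟨A, B⟩ = tr (star A * B)` on `En k`, i.e. `Y0 ∈ 𝒞` and `tr (star c * (XN - Y0)) = 0` for `c ∈ 𝒞`.
(Existence without instances: the linear map `𝒞 → (𝒞 → ℝ)`, `c ↦ tr (star · * c)` is injective, by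
`eq_zero_of_tr`, hence surjective, in finite dimensions.)  `-star Y0` has the same property (take
adjoints, `𝒞` is star closed, `tr_star`), so `star Y0 = -Y0` by uniqueness.
(a) `[XN, c] ∈ 𝒞` for `c ∈ 𝒞`: with `P γ := Ψ (-mγ) = exp (γXS) exp (-γXN)` one has
`exp (αXN) P γ exp (-αXN) = (P α)⋆ * P (α + γ)` (direct computation), so for `c ∈ 𝒞` the operator
`exp (-αXN) c exp (αXN)` commutes with every `P γ`, hence is in `𝒞` (`m ≠ 0`: every `β` is `-mγ`);
differentiate at `α = 0` (`𝒞` is closed): `c XN - XN c ∈ 𝒞`.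
(b) `X' = XN - Y0` commutes with `c ∈ 𝒞`: `[X', c] ∈ 𝒞` by (a) and `[Y0, c] ∈ 𝒞`; and for `d ∈ 𝒞`
`tr (star d * [X', c]) = tr ((c d⋆ - d⋆ c) X') = 0` since `star (c d⋆ - d⋆ c) ∈ 𝒞`; take
`d = [X', c]`, `eq_zero_of_tr`.
(c) `XS - Y0` commutes with `𝒞`: the derivative of `Ψ` at `0` is `(XN - XS)/m`, and every `Ψ β` commutes
with `c ∈ 𝒞`, so `XN - XS` commutes with `𝒞`. -/
def G_CE : Prop := ∀ (k : ℕ) (m : ℤ) (Ψ : ℝ → En k) (XN XS : En k), m ≠ 0 →
  star XN = -XN → star XS = -XS → (∀ β, Ψ β ∈ unitary (En k)) →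
  (∀ β : ℝ, Ψ β = exp (-(β / m) • XS) * exp ((β / m) • XN)) →
  ∃ Y0 : En k, star Y0 = -Y0 ∧ (∀ β, Y0 * Ψ β = Ψ β * Y0) ∧
    ∀ c : En k, (∀ β, c * Ψ β = Ψ β * c) →
      (XN - Y0) * c = c * (XN - Y0) ∧ (XS - Y0) * c = c * (XS - Y0)

/-- **C-PER** (periodic extension of a homotopy).

Proof.  `ContinuousOn.comp_fract` (Mathlib: `Int.fract`, `s × [0,1]`), composed with `z.2/(2π)`; or by
hand. -/
def G_PER : Prop := ∀ (k : ℕ) (H : ℝ → ℝ → En k),
  ContinuousOn (fun z : ℝ × ℝ => H z.1 z.2) (Icc (0 : ℝ) 1 ×ˢ Icc (0 : ℝ) 1) →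
  (∀ s ∈ Icc (0 : ℝ) 1, H s 0 = H s 1) →
  ContinuousOn (fun z : ℝ × ℝ => H z.1 (Int.fract (z.2 / (2 * Real.pi)))) (Icc (0 : ℝ) 1 ×ˢ univ)

/-- the conclusion of the core theorem -/
def CoreConcl (k : ℕ) (m : ℤ) (hN hS Ψ : ℝ → En k) : Prop :=
  ∃ κ Φ : ℝ → ℝ → En k,
    ContinuousOn (fun z : ℝ × ℝ => κ z.1 z.2) (Icc (0 : ℝ) 1 ×ˢ univ) ∧
    ContinuousOn (fun z : ℝ × ℝ => Φ z.1 z.2) (Icc (0 : ℝ) 1 ×ˢ univ) ∧
    (∀ s ∈ Icc (0 : ℝ) 1, ∀ x, κ s x ∈ unitary (En k) ∧ Φ s x ∈ unitary (En k) ∧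
      κ s (x + 2 * Real.pi) = κ s x ∧ Φ s (x + 2 * Real.pi) = Φ s x) ∧
    (∀ α, κ 0 α = 1) ∧ (∀ s ∈ Icc (0 : ℝ) 1, κ s 0 = 1) ∧ (∀ β, Φ 0 β = Ψ β) ∧
    (∀ s ∈ Icc (0 : ℝ) 1, ∀ α β, Ψ β * κ s α = κ s α * Ψ β) ∧
    (∀ s ∈ Icc (0 : ℝ) 1, ∀ α β,
      Φ s (β - m * α) * (hN α * κ 1 α) = (hS α * κ 1 α) * Φ s β) ∧
    ∃ (N : ℕ) (ϖ : Fin N → En k),
      (∀ j, ϖ j * ϖ j = ϖ j ∧ star (ϖ j) = ϖ j ∧
        (∀ α, (hS α * κ 1 α) * ϖ j = ϖ j * (hS α * κ 1 α)) ∧
        ∀ β, star (Φ 1 β) * ϖ j * Φ 1 β = star (Φ 1 0) * ϖ j * Φ 1 0) ∧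
      (∀ i j, i ≠ j → ϖ i * ϖ j = 0) ∧ ∑ j, ϖ j = 1 ∧
      ∀ j, tr (ϖ j) = 2 ∨ (tr (ϖ j) = 1 ∧ j.val = 0)

/-- **C-C0** (the core theorem for `m = 0`; uses `G_CP`, `G_CLB`, `G_PER`).

Proof.  The relation at `β = 0` gives `hN = hS =: h`, and `Ψ β h α = h α Ψ β`.  Let
`S₁ = range Ψ`.  `G_CP` for the path `p t = h (2πt)` in `UC S₁` (`p 0 = p 1 = 1`): `a ∈ UC S₁` and a
homotopy `H` from `p` to `q`, `q t` in the double commutant of `a`.  Put
`κ s α = star (h α) * H s (fract (α/2π))`; continuous by `G_PER` (`H s 0 = p 0 = p 1 = H s 1`),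
`κ 0 α = star (h α) * h (2π fract (α/2π)) = 1` (periodicity), `κ s 0 = 1`; it commutes with `Ψ`.
`hN κ_1 = hS κ_1 = y`, `y α = q (fract (α/2π))`.  `Ψ β` commutes with `a`, so `p' t = Ψ (2πt)` is a path
in `UC {a}`: `G_CP` gives `a₂ ∈ UC {a}` and `H'` from `p'` to `q'`, `q' t` in the double commutant of
`a₂`.  `Φ s β = H' s (fract (β/2π))`, which commutes with `a`, hence with `y α`.  So the relation
`Φ s β * y α = y α * Φ s β` holds.  `G_CLB` for `{a, a₂}` (commuting orthogonal operators; `comm_star`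
gives the star relations) gives `ϖ j` commuting with `a, a₂`, hence with `y α` (`ϖ j` commutes with `a`
and `y α` is in the double commutant) and with `Φ 1 β`, which gives the last properties. -/
def G_C0 : Prop := ∀ (k : ℕ) (hN hS Ψ : ℝ → En k), Loops k 0 hN hS Ψ → CoreConcl k 0 hN hS Ψ

/-- **C-CM** (the core theorem for `m ≠ 0`; uses `G_CD`, `G_CE`, `G_CP`, `G_CW`, `G_CLB`, `G_PER`).

Proof.  Take `XN, XS` from `G_CD`, `Y0` from `G_CE`, `A = XN - Y0`, `B = XS - Y0`: skew, they commute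
with every `c` commuting with all `Ψ β`, in particular with `Y0` (so with `exp (αY0)`).  So
`exp (αXN) = exp (αY0) exp (αA)` etc. and `Ψ β = exp (-(β/m)B) exp ((β/m)A)`.  Let
`K α = exp (-αXN) * hN α = exp (-αXS) * hS α` (commutes with `Ψ`) and `k' α = exp (αY0) * K α`: an
orthogonal operator commuting with all `Ψ β`; `hN α = exp (αA) k' α`, `hS α = exp (αB) k' α`.
`Ψ (2π) = 1` gives `exp ((2π/m)A) = exp ((2π/m)B) =: u`.  `S₁ = range Ψ`.  `G_CP` for
`p t = k' (2πt)` in `UC S₁`, `p 0 = 1`: `a ∈ UC S₁`, homotopy `H` from `p` to `q`, rel end points,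
`q t` in the double commutant of `a`.  Put `κ s α = star (k' α₀) * H s (fract (α/2π))` with
`α₀ = 2π fract (α/2π)`: it is `1` for `fract = 0` and tends to `star (p 1) * H s 1 = 1` for
`fract → 1`, so it is continuous by `G_PER` applied to `(s, t) ↦ star (p t) * H s t`; `κ 0 α = 1`,
`κ s 0 = 1`, `κ` commutes with `Ψ`.  For `α = α₀ + 2πn`: `hN α κ_1 α = hN α₀ κ_1 α₀ = exp (α₀A) y α₀`,
`hS α κ_1 α = exp (α₀B) y α₀` with `y α₀ = q (α₀/2π)`.
`G_CW` for `S = {u, a}` and `A, B` (`A` commutes with `u = exp ((2π/m)A)`, `B` with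
`u = exp ((2π/m)B)`, both with `a`, which commutes with `Ψ`): `w t ∈ UC {u, a}`, `w 0 = 1`,
`A' := w 1 * B * star (w 1)` commutes with `A`.  Put
`Φ s β = exp (-(β/m)B) * star (w s) * exp ((β/m)A)`: `Φ 0 = Ψ`; `Φ s (β + 2π)
= exp (-(β/m)B) u⋆ (w s)⋆ u exp ((β/m)A) = Φ s β`.  Relation, first for `α = α₀ ∈ [0, 2π)`:
`Φ s (β - mα) exp (αA) y = exp (αB) exp (-(β/m)B) w⋆ exp ((β/m)A) y = exp (αB) y Φ s β` because `y`
commutes with everything commuting with `a`: with `A, B` and `w s`.  For general `α = α₀ + 2πn` use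
the periodicity of `Φ s` (`m n` is an integer).
`G_CLB` for `{A, A', a}` (commuting, skew/orthogonal: `w 1` commutes with `a`) gives `π j` commuting
with `A, A', a`; put `ϖ j = star (w 1) * π j * w 1` (trace: `tr_mul_comm`).
`hS α κ_1 α = exp (α₀B) y` and `w 1 (exp (α₀B) y) (w 1)⋆ = exp (α₀A') y` commutes with `π j`.
`star (Φ 1 β) ϖ j Φ 1 β = exp (-(β/m)A) w exp ((β/m)B) w⋆ π j w exp (-(β/m)B) w⋆ exp ((β/m)A)
= exp (-(β/m)A) exp ((β/m)A') π j exp (-(β/m)A') exp ((β/m)A) = π j`. -/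
def G_CM : Prop := ∀ (k : ℕ) (m : ℤ) (hN hS Ψ : ℝ → En k), m ≠ 0 → Loops k m hN hS Ψ →
  CoreConcl k m hN hS Ψ

/-- **C-CORE** (both cases together; trivial from `G_C0`, `G_CM`; will be done by helper61) -/
def G_CORE : Prop := ∀ (k : ℕ) (m : ℤ) (hN hS Ψ : ℝ → En k), Loops k m hN hS Ψ →
  CoreConcl k m hN hS Ψ

end Pool.Agent.Helper61.QS
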