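import Pool.Agent.Helper61.QS.Defs
import Pool.Agent.Helper61.QS.GoalsC

/-!
# Project QS (MP_0ebdb3_gt), blocks H (linear ODEs, holonomy) and A (assembly, descent)

Points of `R4` are `(r, θ, α, β)`.  `star` = adjoint, `tr` = trace, `En n` = operators of `V n`.
A packet may use the other goals as hypotheses.
-/

set_option autoImplicit false

open Set ComplexConjugate

namespace Pool.Agent.Helper61.QS

/-! ### Linear ODEs -/

/-- **H-OD1** (existence).  Proof.  Any: e.g. `Pool.Agent.Helper97.RF.LODEcore`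
(`Pool/Agent/Helper97/RF/LODEcore.lean`, global solutions of `y' = A t (y t)`) applied in the Banach
space `En n` with `A t` = left multiplication by `c t` (`ContinuousLinearMap.mul ℝ (En n) (c t)`). -/
def G_OD1 : Prop := ∀ (n : ℕ) (c : ℝ → En n), Continuous c →
  ∃ U : ℝ → En n, U 0 = 1 ∧ ∀ t, HasDerivAt U (c t * U t) t

/-- **H-OD2** (skew coefficients: orthogonality and uniqueness).
Proof.  `(star U * Y)' = star (c U) Y + star U c Y = star U (star c + c) Y = 0`, so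
`star (U t) * Y t = star (U 0) * Y 0 = Y 0`.  With `Y = U`: `star U * U = 1`, so (finite dimension,
`LinearMap.mul_eq_one_comm` or `mul_eq_one_comm`) `U star U = 1`, and `Y t = U t * Y 0`. -/
def G_OD2 : Prop := ∀ (n : ℕ) (c U : ℝ → En n), (∀ t, star (c t) = -c t) → U 0 = 1 →
  (∀ t, HasDerivAt U (c t * U t) t) →
  (∀ t, U t ∈ unitary (En n)) ∧
  ∀ Y : ℝ → En n, (∀ t, HasDerivAt Y (c t * Y t) t) → ∀ t, Y t = U t * Y 0

/-- **H-OD3** (continuity in all variables; uses `G_OD2`).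
Proof.  Fix `l₀, t₀` and `T = |t₀| + 1`.  `Z t = star (U l₀ t) * U l t` has
`Z' = star (U l₀) (c(l,t) - c(l₀,t)) U l`, of norm `≤ ‖c(l,t) - c(l₀,t)‖` (the `U` are orthogonal, norm
`≤ 1`), so `‖U l t - U l₀ t‖ = ‖Z t - 1‖ ≤ T * sup_{|t| ≤ T} ‖c(l,t) - c(l₀,t)‖` for `|t| ≤ T`
(`Convex.norm_image_sub_le_of_norm_hasDerivWithin_le`).  The sup tends to `0` as `l → l₀` (`c`
continuous, `[-T,T]` compact: tube lemma, or
`IsCompact.eventually_forall_of_forall_eventually`).  And `U l₀` is continuous. -/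
def G_OD3 : Prop := ∀ (Λ : Type) [PseudoMetricSpace Λ] (n : ℕ) (c : Λ × ℝ → En n), Continuous c →
  (∀ z, star (c z) = -c z) → ∀ U : Λ → ℝ → En n, (∀ l, U l 0 = 1) →
  (∀ l t, HasDerivAt (U l) (c (l, t) * U l t) t) → Continuous (fun z : Λ × ℝ => U z.1 z.2)

/-- **H-OD4** (differentiability in a real parameter; uses `G_OD2`, `G_OD3`).
Proof.  Let `c' (l,t) = fderiv ℝ c (l,t) (1,0)` (continuous) and
`D l t = U l t * ∫ τ in 0..t, star (U l τ) * c' (l,τ) * U l τ`.  Then `D l 0 = 0` and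
`∂_t D = c D + c' U` (product rule, `U star U = 1`).  Derivative in `l`: fix `l, t`, let
`Z h τ = star (U l τ) * U (l+h) τ`; `∂_τ Z = star (U l τ) (c(l+h,τ) - c(l,τ)) U (l+h) τ`, so
`(Z h t - 1)/h = ∫ τ in 0..t, star (U l τ) ((c(l+h,τ) - c(l,τ))/h) U (l+h) τ`.  As `h → 0` the
integrand converges uniformly on `[0,t]` to `star (U l τ) c'(l,τ) U l τ` (mean value inequality and
uniform continuity of `c'` on compact sets; `U (l+h) τ → U l τ` uniformly by `G_OD3`), or use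
`intervalIntegral.tendsto_integral_filter_of_dominated_convergence` with the bound
`sup ‖c'‖` on `[l-1,l+1] × [0,t]`. -/
def G_OD4 : Prop := ∀ (n : ℕ) (c : ℝ × ℝ → En n), ContDiff ℝ 1 c → (∀ z, star (c z) = -c z) →
  ∀ U : ℝ → ℝ → En n, (∀ l, U l 0 = 1) → (∀ l t, HasDerivAt (U l) (c (l, t) * U l t) t) →
  ∃ D : ℝ → ℝ → En n, (∀ l t, HasDerivAt (fun x => U x t) (D l t) l) ∧ (∀ l, D l 0 = 0) ∧
    ∀ l t, HasDerivAt (D l) (c (l, t) * D l t + fderiv ℝ c (l, t) (1, 0) * U l t) t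

/-! ### The data on the polar box -/

/-- a projection field `ε` with a connection, in polar coordinates: `b, c` are the coefficients of the
connection on `∂_r, ∂_θ`, the curvature of the `(r,θ)`-planes vanishes; with the identifications coming
from `M_m` -/
structure Dat (m : ℤ) {n : ℕ} (ε b c : R4 → En n) : Prop where
  smε : ContDiff ℝ 1 ε
  smb : ContDiff ℝ 1 b
  smc : ContDiff ℝ 1 c
  idem : ∀ x, ε x * ε x = ε x
  symm : ∀ x, star (ε x) = ε x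
  skb : ∀ x, star (b x) = -b x
  skc : ∀ x, star (c x) = -c x
  dr : ∀ x, fderiv ℝ ε x (1, 0, 0, 0) = b x * ε x - ε x * b x
  dt : ∀ x, fderiv ℝ ε x (0, 1, 0, 0) = c x * ε x - ε x * c x
  flat : ∀ x, (fderiv ℝ c x (1, 0, 0, 0) - fderiv ℝ b x (0, 1, 0, 0) -
    (b x * c x - c x * b x)) * ε x = 0
  perα : ∀ r θ α β, ε (r, θ, α + 2 * Real.pi, β) = ε (r, θ, α, β) ∧
    b (r, θ, α + 2 * Real.pi, β) = b (r, θ, α, β) ∧
    c (r, θ, α + 2 * Real.pi, β) = c (r, θ, α, β)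
  perβ : ∀ r θ α β, ε (r, θ, α, β + 2 * Real.pi) = ε (r, θ, α, β) ∧
    b (r, θ, α, β + 2 * Real.pi) = b (r, θ, α, β) ∧
    c (r, θ, α, β + 2 * Real.pi) = c (r, θ, α, β)
  r0 : ∀ θ α β, ε (0, θ, α, β) = ε (0, θ, 0, β) ∧ c (0, θ, α, β) = c (0, θ, 0, β)
  r1 : ∀ θ α β, ε (Real.pi / 2, θ, α, β) = ε (Real.pi / 2, θ, 0, β - m * α) ∧
    c (Real.pi / 2, θ, α, β) = c (Real.pi / 2, θ, 0, β - m * α)
  t0 : ∀ r α β, ε (r, 0, α, β) = ε (r, 0, α, 0) ∧ b (r, 0, α, β) = b (r, 0, α, 0)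
  t1 : ∀ r α β, ε (r, Real.pi, α, β) = ε (r, Real.pi, α, 0) ∧
    b (r, Real.pi, α, β) = b (r, Real.pi, α, 0)

/-- `R` = transport along the `r`-lines from `r = 0`, `T` = transport along the `θ`-lines from `θ = 0` -/
structure IsTrans {n : ℕ} (b c R T : R4 → En n) : Prop where
  R0 : ∀ θ α β, R (0, θ, α, β) = 1
  T0 : ∀ r α β, T (r, 0, α, β) = 1
  dR : ∀ r θ α β, HasDerivAt (fun t => R (t, θ, α, β)) (b (r, θ, α, β) * R (r, θ, α, β)) r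
  dT : ∀ r θ α β, HasDerivAt (fun t => T (r, t, α, β)) (c (r, θ, α, β) * T (r, θ, α, β)) θ

/-- **H-COM** (the two transports commute, because the `(r,θ)`-curvature vanishes; uses `G_OD2`,
`G_OD4`).

Proof.  Fix `α, β` (drop them); `ε₀ = ε(0,0)`.  First `ε(r,θ) R(r,θ) = R(r,θ) ε(0,θ)`: the derivative in
`r` of `star R * ε * R` is `star R (-b ε + ε_r + ε b) R = 0` (`star b = -b`), and `R` is orthogonal
(`G_OD2`).  Same for `T`: `ε(r,θ) T(r,θ) = T(r,θ) ε(r,0)`.  Let `T_r` be the `r`-derivative of `T` from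
`G_OD4` (parameter `l = r`, time `t = θ`): `∂_θ T_r = c T_r + c_r T`, `T_r(r,0) = 0`.
`L(r,θ) = T(r,θ) R(r,0)`; `L_r := ∂_r L = T_r R(r,0) + T b(r,0) R(r,0)`.  `∂_θ L = c L`,
`∂_θ L_r = c L_r + c_r L`.  For `D = L_r - b(r,θ) L`:
`∂_θ D = c L_r + c_r L - b_θ L - b c L = c D + (c_r - b_θ - (b c - c b)) L`.  Multiply by `ε₀` on the
right: `L ε₀ = ε(r,θ) L`, so the last term is killed by `flat`; `D(r,0) ε₀ = 0`.  So `Y = D(r,·) ε₀`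
solves `Y' = c Y`, `Y 0 = 0`, hence `Y = 0` (`G_OD2`).  So `∂_r (L ε₀) = b(r,θ) (L ε₀)` for all `r`, and
`G_OD2` in the variable `r` gives `L(r,θ) ε₀ = R(r,θ) L(0,θ) ε₀ = R(r,θ) T(0,θ) ε₀`.
(`fderiv ℝ c (r,θ,α,β) (1,0,0,0)` is the derivative in `r`, etc.; `(r,θ) ↦ c (r,θ,α,β)` is `C¹`.) -/
def G_COM : Prop := ∀ (m : ℤ) (n : ℕ) (ε b c R T : R4 → En n), Dat m ε b c → IsTrans b c R T →
  ∀ r θ α β, T (r, θ, α, β) * R (r, 0, α, β) * ε (0, 0, α, β) =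
    R (r, θ, α, β) * T (0, θ, α, β) * ε (0, 0, α, β)

/-- the output of the ODE part -/
structure Hol (m : ℤ) {n : ℕ} (ε R T : R4 → En n) : Prop where
  cε : Continuous ε
  cR : Continuous R
  cT : Continuous T
  idem : ∀ x, ε x * ε x = ε x
  symm : ∀ x, star (ε x) = ε x
  uR : ∀ x, R x ∈ unitary (En n)
  uT : ∀ x, T x ∈ unitary (En n)
  R0 : ∀ θ α β, R (0, θ, α, β) = 1
  T0 : ∀ r α β, T (r, 0, α, β) = 1
  iR : ∀ r θ α β, ε (r, θ, α, β) * R (r, θ, α, β) = R (r, θ, α, β) * ε (0, θ, α, β)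
  iT : ∀ r θ α β, ε (r, θ, α, β) * T (r, θ, α, β) = T (r, θ, α, β) * ε (r, 0, α, β)
  perα : ∀ r θ α β, ε (r, θ, α + 2 * Real.pi, β) = ε (r, θ, α, β) ∧
    R (r, θ, α + 2 * Real.pi, β) = R (r, θ, α, β) ∧
    T (r, θ, α + 2 * Real.pi, β) = T (r, θ, α, β)
  perβ : ∀ r θ α β, ε (r, θ, α, β + 2 * Real.pi) = ε (r, θ, α, β) ∧
    R (r, θ, α, β + 2 * Real.pi) = R (r, θ, α, β) ∧
    T (r, θ, α, β + 2 * Real.pi) = T (r, θ, α, β)
  r0 : ∀ θ α β, ε (0, θ, α, β) = ε (0, θ, 0, β) ∧ T (0, θ, α, β) = T (0, θ, 0, β)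
  r1 : ∀ θ α β, ε (Real.pi / 2, θ, α, β) = ε (Real.pi / 2, θ, 0, β - m * α) ∧
    T (Real.pi / 2, θ, α, β) = T (Real.pi / 2, θ, 0, β - m * α)
  t0 : ∀ r α β, ε (r, 0, α, β) = ε (r, 0, α, 0) ∧ R (r, 0, α, β) = R (r, 0, α, 0)
  t1 : ∀ r α β, ε (r, Real.pi, α, β) = ε (r, Real.pi, α, 0) ∧
    R (r, Real.pi, α, β) = R (r, Real.pi, α, 0)
  d0 : DifferentiableAt ℝ (fun α => R (Real.pi / 2, 0, α, 0)) 0
  d1 : DifferentiableAt ℝ (fun α => R (Real.pi / 2, Real.pi, α, 0)) 0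
  comm : ∀ r θ α β, T (r, θ, α, β) * R (r, 0, α, β) * ε (0, 0, 0, 0) =
    R (r, θ, α, β) * T (0, θ, α, β) * ε (0, 0, 0, 0)

/-- **H-HOL** (uses `G_OD1` - `G_OD4`, `G_COM`).

Proof.  `R (r,θ,α,β) = U r` for the solution `U` (`G_OD1`) with coefficient `t ↦ b (t,θ,α,β)`, similarly
`T`; this gives `IsTrans` (choice).  Continuity: `G_OD3` with `Λ = ℝ × ℝ × ℝ` and a permutation of the
coordinates.  Orthogonality, uniqueness: `G_OD2`.  `iR, iT`: see `G_COM`.  The identities `perα, ...,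
t1`: both sides solve the same equation with the same initial value `1` (e.g.
`T (π/2, θ, α, β)` and `T (π/2, θ, 0, β - mα)` have coefficients `c (π/2, θ, α, β)` and
`c (π/2, θ, 0, β - mα)`, equal by `Dat.r1`); `ε`-parts are in `Dat`.  `d0, d1`: `G_OD4` for
`(l,t) ↦ b (t, 0, l, 0)` and `b (t, π, l, 0)`.  `comm`: `G_COM` and
`ε (0,0,α,β) = ε (0,0,0,β) = ε (0,0,0,0)` (`r0`, `t0`). -/
def G_HOL : Prop := ∀ (m : ℤ) (n : ℕ) (ε b c : R4 → En n), Dat m ε b c →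
  ∃ R T : R4 → En n, Hol m ε R T

/-- **H-ISO** (a projection of rank `k` is `J J⋆` for an isometry `J` of `ℝᵏ`; rank and trace).
Proof.  `stdOrthonormalBasis` of the range of `A` (dimension `k`) gives a linear isometry
`J : V k → V n` onto the range; `J⋆ J = 1`; `J J⋆` is the orthogonal projection to the range, which is
`A` (`A` self-adjoint idempotent).  Trace: `tr (J J⋆) = tr (J⋆ J) = k` (`LinearMap.trace_comp_comm'`),
or `LinearMap.IsIdempotentElem` trace lemma of Mathlib. -/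
def G_ISO : Prop := ∀ (n : ℕ) (A : En n), A * A = A → star A = A →
  tr A = rk A ∧
  ∃ J : V (rk A) →L[ℝ] V n,
    (ContinuousLinearMap.adjoint J).comp J = ContinuousLinearMap.id ℝ (V (rk A)) ∧
    J.comp (ContinuousLinearMap.adjoint J) = A

/-- `J` is an isometry of `ℝᵏ` onto the range of `A` -/
structure IsIso {n k : ℕ} (A : En n) (J : V k →L[ℝ] V n) : Prop where
  left : (ContinuousLinearMap.adjoint J).comp J = ContinuousLinearMap.id ℝ (V k)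
  right : J.comp (ContinuousLinearMap.adjoint J) = A

/-- `J⋆ A J` -/
noncomputable def compr {n k : ℕ} (J J' : V k →L[ℝ] V n) (A : En n) : En k :=
  (ContinuousLinearMap.adjoint J').comp (A.comp J)

/-- the loops `hN, hS, Ψ` in the orthogonal group of `ℝᵏ` -/
noncomputable def lN {n k : ℕ} (J : V k →L[ℝ] V n) (R : R4 → En n) (α : ℝ) : En k :=
  compr J J (star (R (Real.pi / 2, 0, 0, 0)) * R (Real.pi / 2, 0, α, 0))

/-- see `lN` -/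
noncomputable def lS {n k : ℕ} (J : V k →L[ℝ] V n) (R T : R4 → En n) (α : ℝ) : En k :=
  compr ((T (0, Real.pi, 0, 0)).comp J) ((T (0, Real.pi, 0, 0)).comp J)
    (star (R (Real.pi / 2, Real.pi, 0, 0)) * R (Real.pi / 2, Real.pi, α, 0))

/-- see `lN` -/
noncomputable def lΨ {n k : ℕ} (J : V k →L[ℝ] V n) (T : R4 → En n) (β : ℝ) : En k :=
  compr J ((T (0, Real.pi, 0, 0)).comp J) (T (0, Real.pi, 0, β))

/-- **H-LP** (the loops satisfy the hypotheses of the core theorem).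

Proof.  Notation `ε₀ = ε(0,0,0,0) = J J⋆`, `J_S = T(0,π,0,0) J`, so `J_S⋆ J_S = 1` and
`J_S J_S⋆ = T(0,π,0,0) ε₀ T(0,π,0,0)⋆ = ε(0,π,0,0)` (`iT`).  Facts:
(a) `R(π/2,0,0,0)⋆ R(π/2,0,α,0) J = J hN(α)`: the left side has range in that of `ε₀`, because
`R(π/2,0,α,0)` maps the range of `ε(0,0,α,0) = ε₀` to that of `ε(π/2,0,α,0) = ε(π/2,0,0,-mα) =
ε(π/2,0,0,0)` (`iR, r0, r1, t0`), and `J J⋆ = ε₀`.
(b) `R(π/2,π,0,0)⋆ R(π/2,π,α,0) J_S = J_S hS(α)`, in the same way: `ε(0,π,α,0) = ε(0,π,0,0)` (`r0`),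
`ε(π/2,π,α,0) = ε(π/2,π,0,-mα) = ε(π/2,π,0,0)` (`r1, t1`).
(c) `T(0,π,0,β) J = J_S Ψ(β)`: `T(0,π,0,β)` maps the range of `ε(0,0,0,β) = ε₀` to that of
`ε(0,π,0,β) = ε(0,π,0,0)` (`t0, t1`).
Orthogonality: (a) gives `hN⋆ hN = hN⋆ J⋆ J hN = (J hN)⋆ (J hN) = J⋆ R⋆ R R⋆ R J = 1`, and left inverses
are right inverses; same for `hS, Ψ`.  Continuity, periodicity, values at `0`, differentiability: from
`Hol` (`hN 0 = J⋆J = 1`, `Ψ 0 = J_S⋆ J_S = 1`).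
Relation: put `β' = β - mα`.  Apply the injective map `R(π/2,π,0,0) J_S`:
`R(π/2,π,0,0) J_S Ψ(β') hN(α) = R(π/2,π,0,β') T(0,π,0,β') J hN(α)` (c, `t1`)
`= T(π/2,π,0,β') R(π/2,0,0,β') J hN(α)` (`comm`, `J = ε₀ J`)
`= T(π/2,π,0,β') R(π/2,0,0,0) J hN(α) = T(π/2,π,α,β) R(π/2,0,α,0) J` (`t0`, (a), `r1`)
`= T(π/2,π,α,β) R(π/2,0,α,β) J = R(π/2,π,α,β) T(0,π,α,β) J` (`t0`, `comm`)
`= R(π/2,π,α,0) T(0,π,0,β) J = R(π/2,π,α,0) J_S Ψ(β) = R(π/2,π,0,0) J_S hS(α) Ψ(β)`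
(`t1`, `r0`, (c), (b)). -/
def G_LP : Prop := ∀ (m : ℤ) (n k : ℕ) (ε R T : R4 → En n) (J : V k →L[ℝ] V n), Hol m ε R T →
  IsIso (ε (0, 0, 0, 0)) J →
  Loops k m (lN J R) (lS J R T) (lΨ J T) ∧
  (∀ α, (star (R (Real.pi / 2, 0, 0, 0)) * R (Real.pi / 2, 0, α, 0)).comp J =
    J.comp (lN J R α)) ∧
  (∀ β, (T (0, Real.pi, 0, β)).comp J = ((T (0, Real.pi, 0, 0)).comp J).comp (lΨ J T β))

/-! ### Assembly -/

/-- the polar box -/
def Box : Set R4 := {x | 0 ≤ x.1 ∧ x.1 ≤ Real.pi / 2 ∧ 0 ≤ x.2.1 ∧ x.2.1 ≤ Real.pi}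

/-- a function on the box is compatible with the identifications of `M_m` -/
structure Compat (m : ℤ) {Y : Type} (f : R4 → Y) : Prop where
  perα : ∀ r θ α β, (r, θ, α, β) ∈ Box → f (r, θ, α + 2 * Real.pi, β) = f (r, θ, α, β)
  perβ : ∀ r θ α β, (r, θ, α, β) ∈ Box → f (r, θ, α, β + 2 * Real.pi) = f (r, θ, α, β)
  r0 : ∀ θ α β, 0 ≤ θ → θ ≤ Real.pi → f (0, θ, α, β) = f (0, θ, 0, β)
  r1 : ∀ θ α β, 0 ≤ θ → θ ≤ Real.pi →
    f (Real.pi / 2, θ, α, β) = f (Real.pi / 2, θ, 0, β - m * α)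
  t0 : ∀ r α β, 0 ≤ r → r ≤ Real.pi / 2 → f (r, 0, α, β) = f (r, 0, α, 0)
  t1 : ∀ r α β, 0 ≤ r → r ≤ Real.pi / 2 → f (r, Real.pi, α, β) = f (r, Real.pi, α, 0)

/-- a splitting of `ε` over the box compatible with the identifications -/
def BoxSplit (m : ℤ) {n : ℕ} (ε : R4 → En n) : Prop :=
  ∃ (N : ℕ) (f : Fin N → R4 → En n),
    (∀ j, ContinuousOn (f j) Box ∧ Compat m (f j)) ∧
    (∀ j, ∀ x ∈ Box, f j x * f j x = f j x ∧ star (f j x) = f j x ∧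
      (tr (f j x) = 2 ∨ (tr (f j x) = 1 ∧ j.val = 0))) ∧
    (∀ i j, i ≠ j → ∀ x ∈ Box, f i x * f j x = 0) ∧
    ∀ x ∈ Box, ∑ j, f j x = ε x

/-- **A-EJ** (the splitting on the box; uses `G_LP`).

Proof.  Let `hN, hS, Ψ` be the loops `lN, lS, lΨ`, take `κ, Φ, N, ϖ` from `CoreConcl`,
`s = 2r/π`, `σ = 1 - θ/π` (both in `[0,1]` on the box), `M(x) = T(r,θ,α,β) R(r,0,α,β)` (orthogonal) and
`Q(x) = M(x) J κ_s(α) Φ_σ(β)⋆ : V k → V n`, `f_j(x) = Q(x) ϖ_j Q(x)⋆`.  `Q⋆ Q = 1`, so the `f_j` are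
orthogonal projections, mutually orthogonal, of trace `tr ϖ_j`, and
`∑ f_j = Q Q⋆ = M ε₀ M⋆ = ε(x)` because `ε(r,θ) T R = T ε(r,0) R = T R ε(0,0,α,β) = T R ε₀` (`iT, iR`,
`ε(0,0,α,β) = ε₀` by `r0, t0`).  Continuity on the box: clear.  Identifications:
* periodicity: all ingredients are periodic.
* `r = 0` (`s = 0`): `R = 1`, `κ_0 = 1`, `T(0,θ,α,β) = T(0,θ,0,β)`: independent of `α`.
* `r = π/2` (`s = 1`), `β' = β - mα`: `T(π/2,θ,α,β) = T(π/2,θ,0,β')`,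
  `R(π/2,0,α,β) = R(π/2,0,α,0)`, `R(π/2,0,0,β') = R(π/2,0,0,0) =: R₀`, and
  `R(π/2,0,α,0) J = R₀ J hN(α)` (`G_LP`).  So with `T' = T(π/2,θ,0,β')`
  `f_j(π/2,θ,α,β) = T' R₀ J (hN κ_1(α)) Φ_σ(β)⋆ ϖ_j Φ_σ(β) (hN κ_1(α))⋆ J⋆ R₀⋆ T'⋆`; by the relation
  `Φ_σ(β') (hN κ_1) = (hS κ_1) Φ_σ(β)`, i.e. `(hN κ_1) Φ_σ(β)⋆ = Φ_σ(β')⋆ (hS κ_1)`, and since `hS κ_1`
  commutes with `ϖ_j`, this is `T' R₀ J Φ_σ(β')⋆ ϖ_j Φ_σ(β') J⋆ R₀⋆ T'⋆ = f_j(π/2,θ,0,β')`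
  (`κ_1(0) = 1`).
* `θ = 0` (`σ = 1`): `T = 1`, `R(r,0,α,β) = R(r,0,α,0)`, `Φ_1(β)⋆ ϖ_j Φ_1(β)` does not depend on `β`.
* `θ = π` (`σ = 0`, `Φ_0 = Ψ`, which commutes with `κ`): `Q = M J Ψ(β)⋆ κ_s(α)`, so
  `f_j = M J Ψ(β)⋆ (κ ϖ_j κ⋆) Ψ(β) J⋆ M⋆`, and `M J Ψ(β)⋆ = T(r,π,α,β) R(r,0,α,β) J Ψ(β)⋆
  = R(r,π,α,β) T(0,π,α,β) J Ψ(β)⋆ = R(r,π,α,0) T(0,π,0,β) J Ψ(β)⋆ = R(r,π,α,0) T(0,π,0,0) J`
  (`comm`, `J = ε₀ J`, `t1`, `r0`, and `T(0,π,0,β) J = T(0,π,0,0) J Ψ(β)` from `G_LP`): independent of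
  `β`. -/
def G_EJ : Prop := ∀ (m : ℤ) (n k : ℕ) (ε R T : R4 → En n) (J : V k →L[ℝ] V n), Hol m ε R T →
  IsIso (ε (0, 0, 0, 0)) J →
  CoreConcl k m (lN J R) (lS J R T) (lΨ J T) → BoxSplit m ε

/-- **A-D1** (every point of `X` is a rotated polar point).
Proof.  `P = ((a, b), (z, t))`.  `r = arccos ‖a‖ ∈ [0, π/2]`, `sin r = ‖b‖`.  If `a ≠ 0` let
`ζ = a/‖a‖`; if `a = 0` let `ζ = 1`.  Then `a = ζ cos r`.  `b = ζ e^{iα} sin r` for some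
`α ∈ [0, 2π]` (polar form of `b/ζ`; any `α` if `b = 0`), `θ = arccos t ∈ [0,π]`, `sin θ = ‖z‖`,
`z = ζ^m e^{iβ} sin θ` for some `β ∈ [0, 2π]`.  And `ζ = e^{iτ}` with `τ ∈ [0,2π]`. -/
def G_D1 : Prop := ∀ (m : ℤ), ∀ P ∈ X, ∃ τ : ℝ, ∃ x ∈ Box, 0 ≤ τ ∧ τ ≤ 2 * Real.pi ∧
  0 ≤ x.2.2.1 ∧ x.2.2.1 ≤ 2 * Real.pi ∧ 0 ≤ x.2.2.2 ∧ x.2.2.2 ≤ 2 * Real.pi ∧
  P = act m (Complex.exp (τ * Complex.I)) (pol x)

/-- **A-D2** (the identifications are the only ones).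
Proof.  `x = (r,θ,α,β)`, `x' = (r',θ',α',β')`, `pol x' = ζ • pol x`.  First components:
`cos r' = ζ cos r`, both cosines are `≥ 0`, so `cos r' = cos r`, `r = r'`; last components:
`cos θ' = cos θ`, `θ' = θ`.  Case `cos r ≠ 0` (`r < π/2`): `ζ = 1`.  If `sin r ≠ 0`, then
`e^{iα'} = e^{iα}`, `α' = α + 2πj` and `f x'` does not change when `α'` is replaced by `α` (`perα`,
induction on `j`); if `sin r = 0`, i.e. `r = 0`, use `r0`.  Then `sin θ ≠ 0`: `e^{iβ'} = e^{iβ}`, use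
`perβ`; `sin θ = 0`: `θ = 0` or `π`, use `t0, t1`.  Case `r = π/2`: `ζ = e^{i(α'-α)}`; if `sin θ ≠ 0`,
`e^{iβ'} = ζ^m e^{iβ}`, so `β' - mα' = β - mα + 2πj`; `f x' = f (π/2,θ,0,β'-mα') = f (π/2,θ,0,β-mα)
= f x` (`r1`, `perβ`).  If `sin θ = 0`, `f x = f (π/2,θ,0,β-mα) = f (π/2,θ,0,0) = f x'`. -/
def G_D2 : Prop := ∀ (m : ℤ) (Y : Type) (f : R4 → Y), Compat m f → ∀ x ∈ Box, ∀ x' ∈ Box,
  ∀ ζ : ℂ, ‖ζ‖ = 1 → pol x' = act m ζ (pol x) → f x' = f x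

/-- **A-DES** (descent to `X`; uses `G_D1`, `G_D2`).
Proof.  For `P ∈ X` choose `τ, x` from `G_D1` and put `F P = f x` (and `F P = f 0` off `X`).
`F (pol x) = f x` and invariance: if `act m ζ P = act m ζ' (pol x')` and `P = act m ζ'' (pol x)` then
`pol x' = act m (ζ ζ''/ζ') (pol x)` (`act m` is multiplicative), so `f x' = f x` by `G_D2`.
Continuity on `X`: let `K` be the compact set of `(τ, x)` with `τ, α, β ∈ [0,2π]`, `x ∈ Box`; the map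
`q (τ, x) = act m (e^{iτ}) (pol x)` is continuous from `K` onto `X` and `F ∘ q = f ∘ snd` on `K`.  For a
closed set `C ⊆ Y`, `F⁻¹ C ∩ X = q (K ∩ (f ∘ snd)⁻¹ C)` is the image of a compact set, hence closed
(or: sequences and convergent subsequences). -/
def G_DES : Prop := ∀ (m : ℤ) (Y : Type) [TopologicalSpace Y] (f : R4 → Y), Compat m f →
  ContinuousOn f Box → ∃ F : W → Y, ContinuousOn F X ∧
    (∀ ζ : ℂ, ‖ζ‖ = 1 → ∀ P ∈ X, F (act m ζ P) = F P) ∧ ∀ x ∈ Box, F (pol x) = f x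

/-- **A-FIN** (from the box to `X`; uses `G_D1`, `G_DES`, `G_ISO`).
Proof.  Take `N, f` from `BoxSplit`, `F_j` from `G_DES` (`Y = En n`).  Every `P ∈ X` is
`act m ζ (pol x)`, `x ∈ Box`, so `F_j P = f_j x` and `e P = e (pol x)`; all identities follow; the ranks
from the traces by `G_ISO`. -/
def G_FIN : Prop := ∀ (m : ℤ) (n : ℕ) (e : W → En n),
  (∀ ζ : ℂ, ‖ζ‖ = 1 → ∀ P ∈ X, e (act m ζ P) = e P) →
  BoxSplit m (fun x => e (pol x)) → Splits m e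

end Pool.Agent.Helper61.QS
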