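import Mathlib

/-!
# Project QS (MP_0ebdb3_gt), basic notions of the matrix part

`V n` = Euclidean space, `En n` = its operators (`star` = adjoint), `tr` = trace, `UC S` = the group
of orthogonal operators commuting with `S`, `Htp S p q` = homotopy rel end points of two paths in
`UC S`.
-/

set_option autoImplicit false

open Set

namespace Pool.Agent.Helper61.QS

/-- Euclidean space of dimension `n` (a definition, not an abbreviation, so that the instances are
found quickly) -/
def V (n : ℕ) : Type := EuclideanSpace ℝ (Fin n)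

noncomputable instance (n : ℕ) : NormedAddCommGroup (V n) :=
  inferInstanceAs (NormedAddCommGroup (EuclideanSpace ℝ (Fin n)))

noncomputable instance (n : ℕ) : InnerProductSpace ℝ (V n) :=
  inferInstanceAs (InnerProductSpace ℝ (EuclideanSpace ℝ (Fin n)))

instance (n : ℕ) : FiniteDimensional ℝ (V n) :=
  inferInstanceAs (FiniteDimensional ℝ (EuclideanSpace ℝ (Fin n)))

instance (n : ℕ) : CompleteSpace (V n) := FiniteDimensional.complete ℝ (V n)

/-- the standard orthonormal basis -/
noncomputable def stdB (n : ℕ) : OrthonormalBasis (Fin n) ℝ (V n) :=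
  EuclideanSpace.basisFun (Fin n) ℝ

theorem finrank_V (n : ℕ) : Module.finrank ℝ (V n) = n := finrank_euclideanSpace_fin

/-- operators of Euclidean space (real `n × n` matrices); `star` is the adjoint (transpose) -/
abbrev En (n : ℕ) : Type := V n →L[ℝ] V n

/-- trace -/
noncomputable def tr {n : ℕ} (A : En n) : ℝ := LinearMap.trace ℝ (V n) (A : V n →ₗ[ℝ] V n)

/-- orthogonal operators commuting with all elements of `S` -/
def UC {k : ℕ} (S : Set (En k)) : Set (En k) :=
  {u | u ∈ unitary (En k) ∧ ∀ s ∈ S, s * u = u * s}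

/-- `p` is a path `[0,1] → UC S` -/
def IsPath {k : ℕ} (S : Set (En k)) (p : ℝ → En k) : Prop :=
  ContinuousOn p (Icc 0 1) ∧ ∀ t ∈ Icc (0 : ℝ) 1, p t ∈ UC S

/-- `p` and `q` are homotopic rel end points as maps `[0,1] → UC S` -/
def Htp {k : ℕ} (S : Set (En k)) (p q : ℝ → En k) : Prop :=
  ∃ H : ℝ → ℝ → En k,
    ContinuousOn (fun z : ℝ × ℝ => H z.1 z.2) (Icc (0 : ℝ) 1 ×ˢ Icc (0 : ℝ) 1) ∧
    (∀ s ∈ Icc (0 : ℝ) 1, ∀ t ∈ Icc (0 : ℝ) 1, H s t ∈ UC S) ∧
    (∀ t ∈ Icc (0 : ℝ) 1, H 0 t = p t ∧ H 1 t = q t) ∧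
    ∀ s ∈ Icc (0 : ℝ) 1, H s 0 = p 0 ∧ H s 1 = p 1

section trace

variable {n : ℕ}

theorem tr_eq_sum (A : En n) :
    tr A = ∑ i, inner ℝ (stdB n i) (A (stdB n i)) :=
  LinearMap.trace_eq_sum_inner _ _

@[simp] theorem tr_zero : tr (0 : En n) = 0 := by simp [tr]

theorem tr_add (A B : En n) : tr (A + B) = tr A + tr B := by simp [tr]

theorem tr_sub (A B : En n) : tr (A - B) = tr A - tr B := by simp [tr]

theorem tr_neg (A : En n) : tr (-A) = -tr A := by simp [tr]

theorem tr_smul (c : ℝ) (A : En n) : tr (c • A) = c * tr A := by simp [tr]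

theorem tr_one : tr (1 : En n) = n := by
  have h := finrank_V n
  simp [tr, h]

theorem tr_mul_comm (A B : En n) : tr (A * B) = tr (B * A) := by
  have h := LinearMap.trace_mul_comm ℝ (A : V n →ₗ[ℝ] V n) (B : V n →ₗ[ℝ] V n)
  exact h

theorem tr_star (A : En n) : tr (star A) = tr A := by
  rw [tr_eq_sum, tr_eq_sum]
  refine Finset.sum_congr rfl fun i _ => ?_
  rw [ContinuousLinearMap.star_eq_adjoint, ContinuousLinearMap.adjoint_inner_right, real_inner_comm]

/-- the trace as a linear map -/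
noncomputable def trL (n : ℕ) : En n →ₗ[ℝ] ℝ where
  toFun := tr
  map_add' := tr_add
  map_smul' := tr_smul

theorem continuous_tr : Continuous (tr : En n → ℝ) := (trL n).continuous_of_finiteDimensional

theorem tr_sum {ι : Type*} (s : Finset ι) (f : ι → En n) : tr (∑ i ∈ s, f i) = ∑ i ∈ s, tr (f i) :=
  map_sum (trL n) f s

theorem tr_star_mul_self (A : En n) :
    tr (star A * A) = ∑ i, ‖A (stdB n i)‖ ^ 2 := by
  rw [tr_eq_sum]
  refine Finset.sum_congr rfl fun i _ => ?_
  rw [ContinuousLinearMap.star_eq_adjoint, mul_apply_eq_comp,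
    ContinuousLinearMap.adjoint_inner_right, real_inner_self_eq_norm_sq]

theorem tr_star_mul_self_nonneg (A : En n) : 0 ≤ tr (star A * A) := by
  rw [tr_star_mul_self]
  positivity

theorem norm_sq_le_tr (A : En n) : ‖A‖ ^ 2 ≤ tr (star A * A) := by
  have h0 := tr_star_mul_self_nonneg A
  have h : ‖A‖ ≤ Real.sqrt (tr (star A * A)) := by
    refine ContinuousLinearMap.opNorm_le_bound _ (Real.sqrt_nonneg _) fun x => ?_
    have hx : A x = ∑ i, inner ℝ (stdB n i) x • A (stdB n i) := by
      conv_lhs => rw [← (stdB n).sum_repr' x]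
      rw [map_sum]
      simp
    have h1 : ‖A x‖ ≤ ∑ i, ‖inner ℝ (stdB n i) x‖ * ‖A (stdB n i)‖ := by
      rw [hx]
      refine (norm_sum_le _ _).trans (Finset.sum_le_sum fun i _ => ?_)
      rw [norm_smul]
    have h2 : (∑ i, ‖inner ℝ (stdB n i) x‖ * ‖A (stdB n i)‖) ^ 2 ≤
        (∑ i, ‖inner ℝ (stdB n i) x‖ ^ 2) * ∑ i, ‖A (stdB n i)‖ ^ 2 :=
      Finset.sum_mul_sq_le_sq_mul_sq _ _ _
    rw [(stdB n).sum_sq_norm_inner_right x, ← tr_star_mul_self] at h2
    rw [← Real.sqrt_sq (norm_nonneg x), ← Real.sqrt_mul h0]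
    refine Real.le_sqrt_of_sq_le ?_
    calc ‖A x‖ ^ 2 ≤ (∑ i, ‖inner ℝ (stdB n i) x‖ * ‖A (stdB n i)‖) ^ 2 := by gcongr
      _ ≤ _ := by rw [mul_comm]; exact h2
  calc ‖A‖ ^ 2 ≤ (Real.sqrt (tr (star A * A))) ^ 2 := by gcongr
    _ = _ := Real.sq_sqrt h0

theorem tr_le_norm_sq (A : En n) : tr (star A * A) ≤ n * ‖A‖ ^ 2 := by
  rw [tr_star_mul_self]
  have h : ∀ i, ‖A (stdB n i)‖ ^ 2 ≤ ‖A‖ ^ 2 := by
    intro i
    have := A.le_opNorm (stdB n i)
    rw [(stdB n).norm_eq_one i, mul_one] at this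
    gcongr
  calc _ ≤ ∑ _i : Fin n, ‖A‖ ^ 2 := Finset.sum_le_sum fun i _ => h i
    _ = n * ‖A‖ ^ 2 := by simp

theorem eq_zero_of_tr (A : En n) (h : tr (star A * A) = 0) : A = 0 := by
  have := norm_sq_le_tr A
  rw [h] at this
  have h2 : ‖A‖ = 0 := by
    have := le_antisymm this (sq_nonneg _)
    exact pow_eq_zero_iff (two_ne_zero) |>.1 this
  exact norm_eq_zero.1 h2

/-- a skew operator whose square has trace zero vanishes -/
theorem eq_zero_of_skew (A : En n) (hA : star A = -A) (h : tr (A * A) = 0) : A = 0 := by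
  apply eq_zero_of_tr
  rw [hA, neg_mul, tr_neg, h, neg_zero]

/-- for an orthogonal `a` the Hilbert-Schmidt distance to `1` is measured by the trace -/
theorem tr_unitary (a : En n) (ha : a ∈ unitary (En n)) :
    tr (star (a - 1) * (a - 1)) = 2 * (n - tr a) := by
  have h1 : star a * a = 1 := (Unitary.mem_iff.1 ha).1
  have : star (a - 1) * (a - 1) = (1 : En n) + 1 - star a - a := by
    rw [star_sub, star_one, sub_mul, mul_sub, mul_sub, h1]
    simp only [mul_one, one_mul]
    abel
  rw [this, tr_sub, tr_sub, tr_add, tr_one, tr_star]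
  ring

end trace

section UC

variable {k : ℕ} {S : Set (En k)}

theorem UC.star_mul {u : En k} (hu : u ∈ UC S) : star u * u = 1 := (Unitary.mem_iff.1 hu.1).1

theorem UC.mul_star {u : En k} (hu : u ∈ UC S) : u * star u = 1 := (Unitary.mem_iff.1 hu.1).2

theorem UC.one_mem : (1 : En k) ∈ UC S := ⟨Submonoid.one_mem _, fun s _ => by rw [mul_one, one_mul]⟩

theorem UC.mul_mem {u v : En k} (hu : u ∈ UC S) (hv : v ∈ UC S) : u * v ∈ UC S := by
  refine ⟨Submonoid.mul_mem _ hu.1 hv.1, fun s hs => ?_⟩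
  rw [← mul_assoc, hu.2 s hs, mul_assoc, hv.2 s hs, mul_assoc]

/-- if `x` commutes with the orthogonal operator `u` then it commutes with its inverse -/
theorem comm_star {u x : En k} (hu : u ∈ unitary (En k)) (h : x * u = u * x) :
    x * star u = star u * x := by
  have h1 : star u * u = 1 := (Unitary.mem_iff.1 hu).1
  have h2 : u * star u = 1 := (Unitary.mem_iff.1 hu).2
  calc x * star u = star u * (u * x) * star u := by rw [← mul_assoc, h1, one_mul]
    _ = star u * (x * u) * star u := by rw [h]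
    _ = star u * x * (u * star u) := by noncomm_ring
    _ = star u * x := by rw [h2, mul_one]

theorem UC.star_mem {u : En k} (hu : u ∈ UC S) : star u ∈ UC S :=
  ⟨Unitary.star_mem hu.1, fun s hs => comm_star hu.1 (hu.2 s hs)⟩

theorem UC.norm_le {u : En k} (hu : u ∈ UC S) : ‖u‖ ≤ 1 := by
  refine ContinuousLinearMap.opNorm_le_bound _ zero_le_one fun x => ?_
  have h1 : ‖u x‖ ^ 2 = ‖x‖ ^ 2 := by
    rw [← real_inner_self_eq_norm_sq, ← real_inner_self_eq_norm_sq,
      ← ContinuousLinearMap.adjoint_inner_right, ← ContinuousLinearMap.star_eq_adjoint,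
      ← mul_apply_eq_comp, UC.star_mul hu, one_apply_eq_self]
  have h2 : ‖u x‖ = ‖x‖ := by
    have := (sq_eq_sq₀ (norm_nonneg _) (norm_nonneg _)).1 h1
    exact this
  rw [h2, one_mul]

theorem UC.isClosed : IsClosed (UC S) := by
  have h1 : IsClosed {u : En k | u ∈ unitary (En k)} := by
    have : {u : En k | u ∈ unitary (En k)} = {u | star u * u = 1} ∩ {u | u * star u = 1} := by
      ext u
      simp [Unitary.mem_iff]
    rw [this]
    exact (isClosed_eq (by fun_prop) continuous_const).inter (isClosed_eq (by fun_prop) continuous_const)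
  have h2 : IsClosed {u : En k | ∀ s ∈ S, s * u = u * s} := by
    simp only [ofPred_forall]
    exact isClosed_biInter fun s _ => isClosed_eq (by fun_prop) (by fun_prop)
  exact h1.inter h2

theorem UC.isCompact : IsCompact (UC S) := by
  apply Metric.isCompact_of_isClosed_isBounded UC.isClosed
  rw [isBounded_iff_forall_norm_le]
  exact ⟨1, fun u hu => UC.norm_le hu⟩

end UC

end Pool.Agent.Helper61.QS
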