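import Mathlib

/-!
# Project QS (MP_0ebdb3_gt): definitions of the model (statement level, over EuclideanSpace)

The four-manifold `M_m = (S³ × S²) / S¹`, `ζ • (p, (z, t)) = (ζ p, (ζ ^ m z, t))`: the `S²`-bundles over
`S² = S³/S¹` (`S² × S²` for `m` even, `CP² # -CP²` for `m` odd).  Everything on `M_m` is written as an
`S¹`-invariant (basic) object on `X = S³ × S² ⊆ W = (ℂ × ℂ) × (ℂ × ℝ)`.

* a vector bundle of rank `k` with a fibre metric and a metric connection (`IsBundle`): a field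
  `e P` of orthogonal projections of `ℝⁿ` and a skew form `B P (dP)`, covariant derivative `dv - B v`;
* a Riemannian metric of `M_m` (`IsBase`), a metric along the fibres near the zero section
  (`IsFibre`);
* the metric `G = g_M(dP, dP) + γ_{(P,v)}(dv - B v, dv - B v)` of the total space near the zero
  section, written in the local trivializations `(x, w) ↦ (p x, s x w)` (`IsChart`, `gT`);
* the curvature numerator `⟨R(a,b)b,a⟩` in coordinates (`IsCurv`).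
-/

set_option autoImplicit false

open Set ComplexConjugate

namespace Pool.Agent.Helper61.QSS

/-- Euclidean space of dimension `n` -/
abbrev V (n : ℕ) : Type := EuclideanSpace ℝ (Fin n)

/-- operators of Euclidean space (real `n × n` matrices); `star` is the adjoint (transpose) -/
abbrev En (n : ℕ) : Type := V n →L[ℝ] V n

/-- the ambient space of `S³ × S²` -/
abbrev W : Type := (ℂ × ℂ) × (ℂ × ℝ)

/-- `X = S³ × S²` -/
def X : Set W := {P | ‖P.1.1‖ ^ 2 + ‖P.1.2‖ ^ 2 = 1 ∧ ‖P.2.1‖ ^ 2 + P.2.2 ^ 2 = 1}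

/-- the action of `ζ`, `‖ζ‖ = 1`, on points and (it is real linear) on tangent vectors -/
noncomputable def act (m : ℤ) (ζ : ℂ) (P : W) : W := ((ζ * P.1.1, ζ * P.1.2), (ζ ^ m * P.2.1, P.2.2))

/-- the vector tangent to the orbit of `P` -/
def orb (m : ℤ) (P : W) : W :=
  ((Complex.I * P.1.1, Complex.I * P.1.2), (Complex.I * m * P.2.1, 0))

/-- the tangent space of `X` at `P ∈ X` -/
def TX (P : W) : Set W :=
  {u | (conj P.1.1 * u.1.1 + conj P.1.2 * u.1.2).re = 0 ∧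
    (conj P.2.1 * u.2.1).re + P.2.2 * u.2.2 = 0}

/-- the rank of an operator -/
noncomputable def rk {n : ℕ} (A : En n) : ℕ :=
  Module.finrank ℝ (LinearMap.range (A : V n →ₗ[ℝ] V n))

/-- A vector bundle `E` of rank `k` over `M_m`, as a subbundle of a trivial bundle (the fibre over the
class of `P` is the range of the orthogonal projection `e P`), with a connection preserving the inner
product, `∇ v = dv - B v`. -/
structure IsBundle (m : ℤ) (k : ℕ) {n : ℕ} (e : W → En n) (B : W → W →L[ℝ] En n) : Prop where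
  smooth_e : ContDiff ℝ 3 e
  smooth_B : ContDiff ℝ 3 B
  idem : ∀ P ∈ X, e P * e P = e P
  symm : ∀ P ∈ X, star (e P) = e P
  rank : ∀ P ∈ X, rk (e P) = k
  inv : ∀ ζ : ℂ, ‖ζ‖ = 1 → ∀ P ∈ X, e (act m ζ P) = e P
  skew : ∀ P ∈ X, ∀ u ∈ TX P, star (B P u) = -B P u
  par : ∀ P ∈ X, ∀ u ∈ TX P, fderiv ℝ e P u = B P u * e P - e P * B P u
  inv_B : ∀ ζ : ℂ, ‖ζ‖ = 1 → ∀ P ∈ X, ∀ u ∈ TX P, B (act m ζ P) (act m ζ u) = B P u
  horiz : ∀ P ∈ X, B P (orb m P) = 0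

/-- A Riemannian metric of `M_m`, pulled back to `X`. -/
structure IsBase (m : ℤ) (gM : W → W →L[ℝ] W →L[ℝ] ℝ) : Prop where
  smooth : ContDiff ℝ 3 gM
  symm : ∀ P ∈ X, ∀ u ∈ TX P, ∀ u' ∈ TX P, gM P u u' = gM P u' u
  inv : ∀ ζ : ℂ, ‖ζ‖ = 1 → ∀ P ∈ X, ∀ u ∈ TX P, ∀ u' ∈ TX P,
    gM (act m ζ P) (act m ζ u) (act m ζ u') = gM P u u'
  horiz : ∀ P ∈ X, ∀ u ∈ TX P, gM P (orb m P) u = 0
  pos : ∀ P ∈ X, ∀ u ∈ TX P, (∀ τ : ℝ, u ≠ τ • orb m P) → 0 < gM P u u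

/-- A Riemannian metric along the fibres of `E`, at the points `v` with `‖v‖ < ρ`. -/
structure IsFibre (m : ℤ) (ρ : ℝ) {n : ℕ} (e : W → En n)
    (γ : W × V n → V n →L[ℝ] V n →L[ℝ] ℝ) : Prop where
  smooth : ContDiff ℝ 3 γ
  symm : ∀ P ∈ X, ∀ v, e P v = v → ‖v‖ < ρ → ∀ a b, e P a = a → e P b = b →
    γ (P, v) a b = γ (P, v) b a
  pos : ∀ P ∈ X, ∀ v, e P v = v → ‖v‖ < ρ → ∀ a, e P a = a → a ≠ 0 → 0 < γ (P, v) a a
  inv : ∀ ζ : ℂ, ‖ζ‖ = 1 → ∀ P ∈ X, ∀ v, e P v = v → ‖v‖ < ρ →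
    ∀ a b, e P a = a → e P b = b → γ (act m ζ P, v) a b = γ (P, v) a b

/-- coordinates of the base: `(r, θ, α, β)` in the polar coordinates below -/
abbrev R4 : Type := ℝ × ℝ × ℝ × ℝ

/-- A local trivialization over a chart: `p : U → X` is transversal to the orbits (so that it induces
a chart of `M_m`) and `s x` is a linear isomorphism of `ℝᵏ` onto the fibre over `p x`. -/
structure IsChart (m : ℤ) (k : ℕ) {n : ℕ} (e : W → En n) (U : Set R4) (p : R4 → W)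
    (s : R4 → (V k →L[ℝ] V n)) : Prop where
  isOpen : IsOpen U
  smooth_p : ContDiffOn ℝ 3 p U
  smooth_s : ContDiffOn ℝ 3 s U
  mem : ∀ x ∈ U, p x ∈ X
  trans : ∀ x ∈ U, ∀ (a : R4) (τ : ℝ), fderiv ℝ p x a = τ • orb m (p x) → a = 0
  inj : ∀ x ∈ U, Function.Injective (s x)
  range : ∀ x ∈ U, ∀ v : V n, e (p x) v = v ↔ ∃ w : V k, s x w = v

/-- the covariant differential of `v = s x w` at `(x, w)`:
`(a, b) ↦ (Ds a) w + s b - B(p x)(Dp a) (s x w)` -/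
noncomputable def Nf {n k : ℕ} (B : W → W →L[ℝ] En n) (p : R4 → W) (s : R4 → (V k →L[ℝ] V n))
    (z : R4 × V k) : (R4 × V k) →L[ℝ] V n :=
  ((fderiv ℝ s z.1).flip z.2).comp (ContinuousLinearMap.fst ℝ R4 (V k)) +
    (s z.1).comp (ContinuousLinearMap.snd ℝ R4 (V k)) -
    (((B (p z.1)).comp (fderiv ℝ p z.1)).flip (s z.1 z.2)).comp
      (ContinuousLinearMap.fst ℝ R4 (V k))

/-- the metric of the base in the chart `p` -/
noncomputable def gB (gM : W → W →L[ℝ] W →L[ℝ] ℝ) (p : R4 → W) (x : R4) : R4 →L[ℝ] R4 →L[ℝ] ℝ :=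
  (gM (p x)).bilinearComp (fderiv ℝ p x) (fderiv ℝ p x)

/-- the metric of the total space in the local trivialization `(x, w) ↦ (p x, s x w)`:
`G = g_M(dP, dP) + γ_{(P,v)}(dv - B v, dv - B v)` -/
noncomputable def gT {n k : ℕ} (gM : W → W →L[ℝ] W →L[ℝ] ℝ)
    (γ : W × V n → V n →L[ℝ] V n →L[ℝ] ℝ) (B : W → W →L[ℝ] En n) (p : R4 → W)
    (s : R4 → (V k →L[ℝ] V n)) (z : R4 × V k) : (R4 × V k) →L[ℝ] (R4 × V k) →L[ℝ] ℝ :=
  (gB gM p z.1).bilinearComp (ContinuousLinearMap.fst ℝ R4 (V k))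
      (ContinuousLinearMap.fst ℝ R4 (V k)) +
    (γ (p z.1, s z.1 z.2)).bilinearComp (Nf B p s z) (Nf B p s z)

theorem Nf_apply {n k : ℕ} (B : W → W →L[ℝ] En n) (p : R4 → W) (s : R4 → (V k →L[ℝ] V n))
    (x : R4) (w : V k) (a : R4) (b : V k) :
    Nf B p s (x, w) (a, b) =
      (fderiv ℝ s x a) w + s x b - (B (p x) (fderiv ℝ p x a)) (s x w) := rfl

theorem gT_apply {n k : ℕ} (gM : W → W →L[ℝ] W →L[ℝ] ℝ)
    (γ : W × V n → V n →L[ℝ] V n →L[ℝ] ℝ) (B : W → W →L[ℝ] En n) (p : R4 → W)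
    (s : R4 → (V k →L[ℝ] V n)) (x : R4) (w : V k) (a a' : R4) (b b' : V k) :
    gT gM γ B p s (x, w) (a, b) (a', b') =
      gM (p x) (fderiv ℝ p x a) (fderiv ℝ p x a') +
      γ (p x, s x w) (Nf B p s (x, w) (a, b)) (Nf B p s (x, w) (a', b')) := rfl

section curvature

variable {F : Type} [NormedAddCommGroup F] [NormedSpace ℝ F]

/-- the Christoffel symbols of the first kind, `g(∇_a b, c) = (∂_a g(b,c) + ∂_b g(a,c) - ∂_c g(a,b)) / 2`
for constant fields `a, b, c` -/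
noncomputable def Gam (g : F → F →L[ℝ] F →L[ℝ] ℝ) (z a b c : F) : ℝ :=
  (fderiv ℝ (fun y => g y b c) z a + fderiv ℝ (fun y => g y a c) z b -
    fderiv ℝ (fun y => g y a b) z c) / 2

/-- the second derivative `∂_a ∂_b f` at `z` -/
noncomputable def dd (f : F → ℝ) (z a b : F) : ℝ := fderiv ℝ (fun y => fderiv ℝ f y b) z a

/-- `K = g(R(a,b)b, a)`: `K` is the numerator of the sectional curvature of the plane of `a, b` of the
metric `g` at `z`; `cab = ∇_a b` etc., and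
`K = -(∂_a∂_a g(b,b) + ∂_b∂_b g(a,a) - 2 ∂_a∂_b g(a,b))/2 + g(∇_a b, ∇_a b) - g(∇_a a, ∇_b b)` -/
def IsCurv (g : F → F →L[ℝ] F →L[ℝ] ℝ) (z a b : F) (K : ℝ) : Prop :=
  ∃ cab caa cbb : F, (∀ x, g z cab x = Gam g z a b x) ∧ (∀ x, g z caa x = Gam g z a a x) ∧
    (∀ x, g z cbb x = Gam g z b b x) ∧
    K = -(dd (fun y => g y b b) z a a + dd (fun y => g y a a) z b b -
        2 * dd (fun y => g y a b) z a b) / 2 + g z cab cab - g z caa cbb

/-- the sectional curvatures of `g` at `z` are nonnegative -/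
def SecNN (g : F → F →L[ℝ] F →L[ℝ] ℝ) (z : F) : Prop := ∀ a b K, IsCurv g z a b K → 0 ≤ K

end curvature

/-- the metric `G` has nonnegative sectional curvature on the tube `‖v‖ < ρ` -/
def TubeSec (m : ℤ) (k : ℕ) (ρ : ℝ) {n : ℕ} (e : W → En n) (B : W → W →L[ℝ] En n)
    (gM : W → W →L[ℝ] W →L[ℝ] ℝ) (γ : W × V n → V n →L[ℝ] V n →L[ℝ] ℝ) : Prop :=
  ∀ (U : Set R4) (p : R4 → W) (s : R4 → (V k →L[ℝ] V n)), IsChart m k e U p s →
    ∀ x ∈ U, ∀ w : V k, ‖s x w‖ < ρ → SecNN (gT gM γ B p s) (x, w)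

/-- polar coordinates `(r, θ, α, β) ↦ ((cos r, e^{iα} sin r), (e^{iβ} sin θ, cos θ))` -/
noncomputable def pol (x : R4) : W :=
  (((Real.cos x.1 : ℂ), Complex.exp (x.2.2.1 * Complex.I) * Real.sin x.1),
    (Complex.exp (x.2.2.2 * Complex.I) * Real.sin x.2.1, Real.cos x.2.1))

/-- (III): the planes spanned by `∂_r` (radial, horizontal) and `∂_θ` (meridian of the fibre) are flat
in the base metric -/
def FlatPlanes (gM : W → W →L[ℝ] W →L[ℝ] ℝ) : Prop :=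
  ∀ x : R4, Real.sin x.1 ≠ 0 → Real.cos x.1 ≠ 0 → Real.sin x.2.1 ≠ 0 →
    IsCurv (gB gM pol) x (1, 0, 0, 0) (0, 1, 0, 0) 0

/-- the connection form of `S³ → S²` -/
def eta (P u : W) : ℝ := (conj P.1.1 * u.1.1 + conj P.1.2 * u.1.2).im

/-- the vertical part (tangent to the fibre `S²`) of a vector at `P` for the standard connection of
`M_m → S²` -/
def kap (m : ℤ) (P u : W) : ℂ × ℝ :=
  (u.2.1 - Complex.I * m * eta P u * P.2.1, u.2.2)

/-- the unit sphere `S² ⊆ ℂ × ℝ` -/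
def S2 : Set (ℂ × ℝ) := {q | ‖q.1‖ ^ 2 + q.2 ^ 2 = 1}

/-- (I) and (II): `g_M = φ(t)² H + K` where `H` is a metric of the base `S²` (pulled back to `S³`) and
`K` is a metric of the fibre, evaluated on the vertical part for the standard connection; either
`m = 0` and `φ = 1` (all products of two metrics on `S² × S²`), or `K` is rotationally symmetric (in
normalized position: the meridians are orthogonal to the parallels) and `φ > 0` is any function of the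
height `t`. -/
def Standard (m : ℤ) (gM : W → W →L[ℝ] W →L[ℝ] ℝ) : Prop :=
  ∃ (φ : ℝ → ℝ) (H : ℂ × ℂ → (ℂ × ℂ) →L[ℝ] (ℂ × ℂ) →L[ℝ] ℝ)
    (K : ℂ × ℝ → (ℂ × ℝ) →L[ℝ] (ℂ × ℝ) →L[ℝ] ℝ),
    ContDiff ℝ 3 φ ∧ (∀ t, 0 < φ t) ∧ ContDiff ℝ 3 H ∧ ContDiff ℝ 3 K ∧
    (∀ P ∈ X, ∀ u ∈ TX P, ∀ u' ∈ TX P,
      gM P u u' = φ P.2.2 ^ 2 * H P.1 u.1 u'.1 + K P.2 (kap m P u) (kap m P u')) ∧
    ((m = 0 ∧ ∀ t, φ t = 1) ∨
      ((∀ ζ : ℂ, ‖ζ‖ = 1 → ∀ q ∈ S2, ∀ a b : ℂ × ℝ,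
          K (ζ * q.1, q.2) (ζ * a.1, a.2) (ζ * b.1, b.2) = K q a b) ∧
        ∀ q ∈ S2, K q (-(q.2 * q.1), 1 - q.2 ^ 2) (Complex.I * q.1, 0) = 0))

/-- The bundle is the orthogonal sum of continuous subbundles, all of rank 2 except possibly one (with
index 0) of rank 1; i.e. its structure group reduces to a torus. -/
def Splits (m : ℤ) {n : ℕ} (e : W → En n) : Prop :=
  ∃ (N : ℕ) (f : Fin N → W → En n),
    (∀ j, ContinuousOn (f j) X) ∧
    (∀ j, ∀ ζ : ℂ, ‖ζ‖ = 1 → ∀ P ∈ X, f j (act m ζ P) = f j P) ∧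
    (∀ j, ∀ P ∈ X, f j P * f j P = f j P ∧ star (f j P) = f j P ∧
      (rk (f j P) = 2 ∨ (rk (f j P) = 1 ∧ j.val = 0))) ∧
    (∀ i j, i ≠ j → ∀ P ∈ X, f i P * f j P = 0) ∧
    ∀ P ∈ X, ∑ j, f j P = e P

/-- the main theorem -/
def G_MAIN : Prop :=
  ∀ (n k : ℕ) (m : ℤ) (e : W → En n) (B : W → W →L[ℝ] En n) (gM : W → W →L[ℝ] W →L[ℝ] ℝ)
    (γ : W × V n → V n →L[ℝ] V n →L[ℝ] ℝ) (ρ : ℝ),
    IsBundle m k e B → IsBase m gM → IsFibre m ρ e γ → 0 < ρ →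
    (Standard m gM ∨ FlatPlanes gM) → TubeSec m k ρ e B gM γ → Splits m e

end Pool.Agent.Helper61.QSS
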