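import Pool.Agent.Helper61.QS.Final
import Pool.Agent.Helper61.QS.Stmt

/-!
# Project QS (MP_0ebdb3_gt): the main theorem for the statement-level definitions
-/

set_option autoImplicit false

namespace Pool.Agent.Helper61.QSS

open Pool.Agent.Helper61

theorem conv : G_MAIN := by
  intro n k m e B gM γ ρ hE hM hγ hρ hcl hsec
  have hE' : QS.IsBundle (n := n) m k e B :=
    ⟨hE.smooth_e, hE.smooth_B, hE.idem, hE.symm, hE.rank, hE.inv, hE.skew, hE.par, hE.inv_B,
      hE.horiz⟩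
  have hM' : QS.IsBase m gM := ⟨hM.smooth, hM.symm, hM.inv, hM.horiz, hM.pos⟩
  have hγ' : QS.IsFibre (n := n) m ρ e γ := ⟨hγ.smooth, hγ.symm, hγ.pos, hγ.inv⟩
  have hsec' : QS.TubeSec (n := n) m k ρ e B gM γ := by
    intro U p s hs x hx w hw
    have hs' : IsChart (n := n) m k e U p s :=
      ⟨hs.isOpen, hs.smooth_p, hs.smooth_s, hs.mem, hs.trans, hs.inj, hs.range⟩
    exact hsec U p s hs' x hx w hw
  exact QS.allMAIN n k m e B gM γ ρ hE' hM' hγ' hρ hcl hsec'

end Pool.Agent.Helper61.QSS
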