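import Pool.Agent.Helper61.QS.Main
import Pool.Agent.Helper12.QS.CD
import Pool.Agent.Helper12.QS.CPA
import Pool.Agent.Helper13.QS.SR1
import Pool.Agent.Helper14.QS.DAT
import Pool.Agent.Helper23.QS.CM
import Pool.Agent.Helper23.QS.HOL
import Pool.Agent.Helper24.QS.BX
import Pool.Agent.Helper24.QS.CP
import Pool.Agent.Helper24.QS.G1
import Pool.Agent.Helper24.QS.PER
import Pool.Agent.Helper25.QS.STD
import Pool.Agent.Helper28.QS.CW
import Pool.Agent.Helper28.QS.KC
import Pool.Agent.Helper34.QS.C0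
import Pool.Agent.Helper4.QS.EQ
import Pool.Agent.Helper4.QS.FR
import Pool.Agent.Helper45.QS.KG
import Pool.Agent.Helper48.QS.CPB
import Pool.Agent.Helper5.QS.ISO
import Pool.Agent.Helper5.QS.SR2
import Pool.Agent.Helper50.QS.COM
import Pool.Agent.Helper57.QS.D1
import Pool.Agent.Helper57.QS.DES
import Pool.Agent.Helper57.QS.HEQ
import Pool.Agent.Helper57.QS.OD3
import Pool.Agent.Helper57.QS.PGA
import Pool.Agent.Helper57.QS.PGB
import Pool.Agent.Helper57.QS.SEG
import Pool.Agent.Helper59.QS.OD2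
import Pool.Agent.Helper62.QS.G2
import Pool.Agent.Helper69.QS.CE
import Pool.Agent.Helper77.QS.CLA
import Pool.Agent.Helper78.QS.EJ
import Pool.Agent.Helper78.QS.LP
import Pool.Agent.Helper8.QS.D2
import Pool.Agent.Helper8.QS.PL
import Pool.Agent.Helper86.QS.CLB
import Pool.Agent.Helper86.QS.G3
import Pool.Agent.Helper86.QS.SP
import Pool.Agent.Helper88.QS.OD4
import Pool.Agent.Helper89.QS.OD1

/-!
# Project QS (MP_0ebdb3_gt): all goals together
-/

set_option autoImplicit false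

namespace Pool.Agent.Helper61.QS

open Pool.Agent

theorem allCPA : G_CPA := Helper12.QS.goalCPA (Helper57.QS.goalHEQ Helper57.QS.goalSEG)
  Helper57.QS.goalPGA Helper57.QS.goalPGB

theorem allCP : G_CP := Helper24.QS.goalCP Helper57.QS.goalSEG
  (Helper48.QS.goalCPB (Helper57.QS.goalHEQ Helper57.QS.goalSEG) Helper57.QS.goalPGA
    Helper4.QS.goalEQ allCPA)

theorem allCW : G_CW := Helper28.QS.goalCW Helper57.QS.goalSEG

theorem allCLB : G_CLB := Helper86.QS.goalCLB Helper77.QS.goalCLA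

theorem allCORE : G_CORE := goalCORE (Helper34.QS.goalC0 allCP allCLB Helper24.QS.goalPER)
  (Helper23.QS.goalCM Helper12.QS.goalCD Helper69.QS.goalCE allCP allCW allCLB
    Helper24.QS.goalPER)

theorem allOD3 : G_OD3 := Helper57.QS.goalOD3 Helper59.QS.goalOD2

theorem allOD4 : G_OD4 := Helper88.QS.goalOD4 Helper59.QS.goalOD2 allOD3

theorem allHOL : G_HOL := Helper23.QS.goalHOL Helper89.QS.goalOD1 Helper59.QS.goalOD2 allOD3 allOD4
  (Helper50.QS.goalCOM Helper59.QS.goalOD2 allOD4)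

theorem allFIN : G_FIN := Helper57.QS.goalFIN Helper57.QS.goalD1
  (Helper57.QS.goalDES Helper57.QS.goalD1 Helper8.QS.goalD2) Helper5.QS.goalISO

theorem allG2 : G_G2 := Helper62.QS.goalG2 Helper24.QS.goalG1

theorem allBX : G_BX := Helper24.QS.goalBX Helper8.QS.goalPL Helper86.QS.goalG3

theorem allKC : G_KC := Helper28.QS.goalKC (Helper4.QS.goalFR Helper8.QS.goalPL Helper5.QS.goalISO)
  (Helper45.QS.goalKG Helper8.QS.goalPL allG2 allBX)

theorem allSTD : G_STD := Helper25.QS.goalSTD (Helper86.QS.goalSP Helper8.QS.goalPL allBX)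
  (Helper13.QS.goalSR1 Helper8.QS.goalPL allBX) Helper5.QS.goalSR2

theorem allMAIN : G_MAIN := main allCORE allHOL Helper5.QS.goalISO Helper78.QS.goalLP
  Helper78.QS.goalEJ allFIN Helper8.QS.goalPL allKC allSTD
  (Helper14.QS.goalDAT Helper8.QS.goalPL)

end Pool.Agent.Helper61.QS
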