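import Pool.Agent.Helper61.QS.GoalsG

/-!
# Project QS (MP_0ebdb3_gt): assembly of the main theorem from the goals
-/

set_option autoImplicit false

open Set ComplexConjugate

namespace Pool.Agent.Helper61.QS

theorem goalCORE (h0 : G_C0) (hM : G_CM) : G_CORE := by
  intro k m hN hS Ψ h
  rcases eq_or_ne m 0 with rfl | hm
  · exact h0 k hN hS Ψ h
  · exact hM k m hN hS Ψ hm h

theorem main (hcore : G_CORE) (hHOL : G_HOL) (hISO : G_ISO) (hLP : G_LP) (hEJ : G_EJ)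
    (hFIN : G_FIN) (hPL : G_PL) (hKC : G_KC) (hSTD : G_STD) (hDAT : G_DAT) : G_MAIN := by
  intro n k m e B gM γ ρ hE hM hγ hρ hcl hsec
  -- the curvature of the `(r,θ)`-planes vanishes
  have hnn : ∀ x ∈ Reg, ∀ K, IsCurv (gB gM pol) x (1, 0, 0, 0) (0, 1, 0, 0) K → 0 ≤ K := by
    intro x hx K hK
    exact (hKC m k n e B gM γ ρ hE hM hγ hρ hsec x hx K hK).1
  have hflat : ∀ x ∈ Reg, IsCurv (gB gM pol) x (1, 0, 0, 0) (0, 1, 0, 0) 0 := by
    rcases hcl with hcl | hcl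
    · exact hSTD m gM hM hcl hnn
    · intro x hx
      exact hcl x hx.1 hx.2.1 hx.2.2
  have hF : ∀ x ∈ Reg, FF B x * e (pol x) = 0 := by
    intro x hx
    exact (hKC m k n e B gM γ ρ hE hM hγ hρ hsec x hx 0 (hflat x hx)).2 rfl
  have hdat := hDAT m k n e B hE hF
  obtain ⟨R, T, hol⟩ := hHOL m n _ _ _ hdat
  -- the isometry
  have hx0 : pol (0, 0, 0, 0) ∈ X := hPL.2.1 _
  obtain ⟨-, J, hJ1, hJ2⟩ := hISO n (e (pol (0, 0, 0, 0))) (hE.idem _ hx0) (hE.symm _ hx0)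
  have hJ : IsIso ((fun x => e (pol x)) (0, 0, 0, 0)) J := ⟨hJ1, hJ2⟩
  have hloops := (hLP m n _ _ R T J hol hJ).1
  have hsplit := hEJ m n _ _ R T J hol hJ (hcore _ m _ _ _ hloops)
  exact hFIN m n e hE.inv hsplit

end Pool.Agent.Helper61.QS
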